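import Mathlib

set_option autoImplicit false

namespace Pool.Agent.Helper3.Col

/-- Finite Ramsey theorem for `t`-subsets. -/
theorem ramsey (t : ℕ) : ∀ (κ : Type) [Finite κ] [Nonempty κ] (m : ℕ), ∃ N, ∀ (n : ℕ)
    (S : Finset (Fin n)), N ≤ S.card → ∀ χ : Finset (Fin n) → κ, ∃ T ⊆ S, m ≤ T.card ∧
      ∃ a, ∀ U ⊆ T, U.card = t → χ U = a := by
  induction t with
  | zero =>
    intro κ _ _ m
    refine ⟨m, fun n S hS χ => ⟨S, subset_rfl, hS, χ ∅, fun U _ hU => ?_⟩⟩
    rw [Finset.card_eq_zero.1 hU]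
  | succ t ih =>
    intro κ _ _ m
    classical
    have aux : ∀ p : ℕ, ∃ N, ∀ (n : ℕ) (S : Finset (Fin n)), N ≤ S.card →
        ∀ χ : Finset (Fin n) → κ, ∃ T ⊆ S, p ≤ T.card ∧ ∃ a : Fin n → κ,
          ∀ x ∈ T, ∀ U ⊆ T, U.card = t → (∀ u ∈ U, x < u) → χ (insert x U) = a x := by
      intro p
      induction p with
      | zero =>
        refine ⟨0, fun n S _ χ => ⟨∅, Finset.empty_subset _, le_rfl,
          fun _ => Classical.arbitrary κ, fun x hx => absurd hx (Finset.notMem_empty x)⟩⟩
      | succ p ihp =>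
        obtain ⟨Np, hNp⟩ := ihp
        obtain ⟨Nt, hNt⟩ := ih κ Np
        refine ⟨Nt + 1, fun n S hS χ => ?_⟩
        have hne : S.Nonempty := Finset.card_pos.1 (by omega)
        set x := S.min' hne with hx
        have hxS : x ∈ S := Finset.min'_mem S hne
        obtain ⟨T', hT', hT'c, a0, ha0⟩ := hNt n (S.erase x) (by
          rw [Finset.card_erase_of_mem hxS]; omega) (fun U => χ (insert x U))
        obtain ⟨T'', hT'', hT''c, a, ha⟩ := hNp n T' hT'c χ
        have hlt : ∀ y ∈ T'', x < y := by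
          intro y hy
          have := hT' (hT'' hy)
          rw [Finset.mem_erase] at this
          exact lt_of_le_of_ne (Finset.min'_le S y this.2) (Ne.symm this.1)
        have hxT : x ∉ T'' := fun h => lt_irrefl _ (hlt x h)
        refine ⟨insert x T'', ?_, ?_, Function.update a x a0, ?_⟩
        · intro y hy
          rw [Finset.mem_insert] at hy
          rcases hy with rfl | hy
          · exact hxS
          · exact Finset.mem_of_mem_erase (hT' (hT'' hy))
        · rw [Finset.card_insert_of_notMem hxT]; omega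
        · intro y hy U hU hUc hUy
          have hyx : x ≤ y := by
            rw [Finset.mem_insert] at hy
            rcases hy with rfl | hy
            · exact le_rfl
            · exact (hlt y hy).le
          have hU' : U ⊆ T'' := by
            intro u hu
            have h1 := hU hu
            rw [Finset.mem_insert] at h1
            rcases h1 with rfl | h1
            · exact absurd (hUy _ hu) (not_lt_of_ge hyx)
            · exact h1
          rw [Finset.mem_insert] at hy
          rcases hy with rfl | hy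
          · rw [Function.update_self]
            exact ha0 U (hU'.trans hT'') hUc
          · rw [Function.update_of_ne (hlt y hy).ne']
            exact ha y hy U hU' hUc hUy
    haveI := Fintype.ofFinite κ
    obtain ⟨N, hN⟩ := aux (Fintype.card κ * m)
    refine ⟨N, fun n S hS χ => ?_⟩
    obtain ⟨T, hT, hTc, a, ha⟩ := hN n S hS χ
    obtain ⟨b, _, hb⟩ := Finset.exists_le_card_fiber_of_mul_le_card_of_maps_to
      (s := T) (t := (Finset.univ : Finset κ)) (f := a) (n := m) (fun x _ => Finset.mem_univ _)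
      Finset.univ_nonempty (by rw [Finset.card_univ]; exact hTc)
    refine ⟨T.filter (fun x => a x = b), (Finset.filter_subset _ _).trans hT, hb, b, ?_⟩
    intro U hU hUc
    have hne : U.Nonempty := Finset.card_pos.1 (by omega)
    set x := U.min' hne with hx
    have hxU : x ∈ U := Finset.min'_mem U hne
    have h1 : insert x (U.erase x) = U := Finset.insert_erase hxU
    have h2 := hU hxU
    rw [Finset.mem_filter] at h2
    rw [← h1, ← h2.2]
    refine ha x h2.1 (U.erase x) ?_ ?_ ?_
    · intro u hu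
      exact (Finset.mem_filter.1 (hU (Finset.mem_of_mem_erase hu))).1
    · rw [Finset.card_erase_of_mem hxU]; omega
    · intro u hu
      rw [Finset.mem_erase] at hu
      exact lt_of_le_of_ne (Finset.min'_le U u hu.2) (Ne.symm hu.1)

/-- equality patterns of `c` on `t`-subsets of `T` do not depend on the subset -/
def Hom {n : ℕ} {Γ : Type} (c : Finset (Fin n) → Γ) (T : Finset (Fin n)) (t : ℕ) : Prop :=
  ∀ u u' : Fin t → Fin n, StrictMono u → StrictMono u' → (∀ i, u i ∈ T) → (∀ i, u' i ∈ T) →
    ∀ I I' : Finset (Fin t), c (I.image u) = c (I'.image u) ↔ c (I.image u') = c (I'.image u')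

lemma Hom.mono {n : ℕ} {Γ : Type} {c : Finset (Fin n) → Γ} {T T' : Finset (Fin n)} {t : ℕ}
    (h : Hom c T t) (hT : T' ⊆ T) : Hom c T' t :=
  fun u u' hu hu' h1 h2 => h u u' hu hu' (fun i => hT (h1 i)) (fun i => hT (h2 i))

theorem homRamsey (t m : ℕ) : ∃ N, ∀ (n : ℕ) (S : Finset (Fin n)), N ≤ S.card →
    ∀ (Γ : Type) (c : Finset (Fin n) → Γ), ∃ T ⊆ S, m ≤ T.card ∧ Hom c T t := by
  classical
  obtain ⟨N, hN⟩ := ramsey t (Set (Finset (Fin t) × Finset (Fin t))) m
  refine ⟨N, fun n S hS Γ c => ?_⟩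
  obtain ⟨T, hT, hTc, a, ha⟩ := hN n S hS (fun U => if h : U.card = t then
    {p | c (p.1.image (U.orderEmbOfFin h)) = c (p.2.image (U.orderEmbOfFin h))} else ∅)
  refine ⟨T, hT, hTc, ?_⟩
  have key : ∀ u : Fin t → Fin n, StrictMono u → (∀ i, u i ∈ T) → ∀ I I' : Finset (Fin t),
      (c (I.image u) = c (I'.image u) ↔ (I, I') ∈ a) := by
    intro u hu huT I I'
    have hc : (Finset.univ.image u).card = t := by
      rw [Finset.card_image_of_injective _ hu.injective, Finset.card_univ, Fintype.card_fin]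
    have h1 := ha (Finset.univ.image u) (by
      intro x hx
      rw [Finset.mem_image] at hx
      obtain ⟨i, _, rfl⟩ := hx
      exact huT i) hc
    rw [dif_pos hc] at h1
    have h2 : u = (Finset.univ.image u).orderEmbOfFin hc :=
      Finset.orderEmbOfFin_unique hc (fun i => Finset.mem_image_of_mem u (Finset.mem_univ i)) hu
    rw [← h1]
    rw [Set.mem_setOf_eq, ← h2]
  intro u u' hu hu' h1 h2 I I'
  rw [key u hu h1, key u' hu' h2]

theorem homAll (t0 m : ℕ) : ∃ N, ∀ (n : ℕ) (S : Finset (Fin n)), N ≤ S.card →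
    ∀ (Γ : Type) (c : Finset (Fin n) → Γ), ∃ T ⊆ S, m ≤ T.card ∧ ∀ t ≤ t0, Hom c T t := by
  induction t0 with
  | zero =>
    obtain ⟨N, hN⟩ := homRamsey 0 m
    refine ⟨N, fun n S hS Γ c => ?_⟩
    obtain ⟨T, hT, hTc, h⟩ := hN n S hS Γ c
    exact ⟨T, hT, hTc, fun t ht => by rw [Nat.le_zero.1 ht]; exact h⟩
  | succ t0 ih =>
    obtain ⟨N1, hN1⟩ := ih
    obtain ⟨N, hN⟩ := homRamsey (t0 + 1) N1
    refine ⟨N, fun n S hS Γ c => ?_⟩
    obtain ⟨T, hT, hTc, h⟩ := hN n S hS Γ c
    obtain ⟨T', hT', hTc', h'⟩ := hN1 n T hTc Γ c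
    refine ⟨T', hT'.trans hT, hTc', fun t ht => ?_⟩
    rcases Nat.lt_or_ge t (t0 + 1) with h1 | h1
    · exact h' t (by omega)
    · have : t = t0 + 1 := by omega
      subst this
      exact h.mono hT'

end Pool.Agent.Helper3.Col
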