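import Mathlib
import Pool.Agent.Helper3.ColRamsey

set_option autoImplicit false

namespace Pool.Agent.Helper3.Col

variable {n : ℕ} {Γ : Type}

/-- colour of the range of a tuple -/
def ct (c : Finset (Fin n) → Γ) {j : ℕ} (v : Fin j → Fin n) : Γ := c (Finset.univ.image v)

lemma insertNth_mono {j : ℕ} (i : Fin j) (v : Fin j → Fin n) (x : Fin n) (hv : StrictMono v)
    (hx : x < v i) (hv' : StrictMono (Function.update v i x)) :
    StrictMono (Fin.insertNth (α := fun _ => Fin n) i.castSucc x v) := by
  intro a b hab
  by_cases ha : a = i.castSucc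
  · subst ha
    obtain ⟨b', rfl⟩ := Fin.exists_succAbove_eq hab.ne'
    rw [Fin.insertNth_apply_same, Fin.insertNth_apply_succAbove]
    have h1 : i ≤ b' := by
      by_contra hcon
      push Not at hcon
      rw [Fin.succAbove_of_castSucc_lt _ _ (by exact hcon)] at hab
      exact absurd hab (not_lt_of_gt (by exact hcon))
    exact lt_of_lt_of_le hx (hv.monotone h1)
  · obtain ⟨a', rfl⟩ := Fin.exists_succAbove_eq ha
    by_cases hb : b = i.castSucc
    · subst hb
      rw [Fin.insertNth_apply_same, Fin.insertNth_apply_succAbove]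
      have h1 : a' < i := by
        by_contra hcon
        push Not at hcon
        rw [Fin.succAbove_of_le_castSucc _ _ (by exact hcon)] at hab
        have : a'.castSucc < a'.succ := Fin.castSucc_lt_succ
        exact absurd (hab.trans_le (by exact hcon)) (not_lt_of_gt this)
      have h2 := hv' h1
      rwa [Function.update_of_ne h1.ne, Function.update_self] at h2
    · obtain ⟨b', rfl⟩ := Fin.exists_succAbove_eq hb
      rw [Fin.insertNth_apply_succAbove, Fin.insertNth_apply_succAbove]
      exact hv ((Fin.strictMono_succAbove _).lt_iff_lt.1 hab)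

lemma insertNth_succ {j : ℕ} (i : Fin j) (v : Fin j → Fin n) (x : Fin n) :
    (Fin.insertNth (α := fun _ => Fin n) i.castSucc x v) ∘ i.succ.succAbove =
      Function.update v i x := by
  funext a
  simp only [Function.comp]
  rcases lt_trichotomy a i with h | h | h
  · rw [Function.update_of_ne h.ne]
    have h1 : i.succ.succAbove a = i.castSucc.succAbove a := by
      rw [Fin.succAbove_of_castSucc_lt i.succ a (by
          have h2 : a.castSucc < i.castSucc := by exact h
          exact h2.trans Fin.castSucc_lt_succ),
        Fin.succAbove_of_castSucc_lt i.castSucc a (by exact h)]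
    rw [h1, Fin.insertNth_apply_succAbove]
  · subst h
    rw [Function.update_self]
    have h1 : a.succ.succAbove a = a.castSucc :=
      Fin.succAbove_of_castSucc_lt _ _ Fin.castSucc_lt_succ
    rw [h1, Fin.insertNth_apply_same]
  · rw [Function.update_of_ne h.ne']
    have h1 : i.succ.succAbove a = i.castSucc.succAbove a := by
      rw [Fin.succAbove_of_le_castSucc _ _ (by
          rw [Fin.le_def]
          simp only [Fin.val_succ, Fin.val_castSucc]
          exact h),
        Fin.succAbove_of_le_castSucc _ _ (by
          rw [Fin.le_def]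
          simp only [Fin.val_castSucc]
          exact h.le)]
    rw [h1, Fin.insertNth_apply_succAbove]

lemma slemma (c : Finset (Fin n) → Γ) (T : Finset (Fin n)) (j : ℕ) (h : Hom c T (j + 1)) :
    ∃ Q : Fin j → Prop, ∀ i (v : Fin j → Fin n) (x : Fin n), StrictMono v → (∀ a, v a ∈ T) →
      x ∈ T → x ≠ v i → StrictMono (Function.update v i x) →
      (ct c (Function.update v i x) = ct c v ↔ Q i) := by
  classical
  refine ⟨fun i => ∃ u : Fin (j + 1) → Fin n, StrictMono u ∧ (∀ a, u a ∈ T) ∧
    ct c (u ∘ i.castSucc.succAbove) = ct c (u ∘ i.succ.succAbove), ?_⟩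
  have key : ∀ i (u u' : Fin (j + 1) → Fin n), StrictMono u → StrictMono u' → (∀ a, u a ∈ T) →
      (∀ a, u' a ∈ T) →
      (ct c (u ∘ i.castSucc.succAbove) = ct c (u ∘ (i : Fin j).succ.succAbove) ↔
       ct c (u' ∘ i.castSucc.succAbove) = ct c (u' ∘ i.succ.succAbove)) := by
    intro i u u' hu hu' h1 h2
    have := h u u' hu hu' h1 h2 (Finset.univ.image i.castSucc.succAbove)
      (Finset.univ.image i.succ.succAbove)
    simpa only [ct, Finset.image_image] using this
  have main : ∀ i (v : Fin j → Fin n) (x : Fin n), StrictMono v → (∀ a, v a ∈ T) →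
      x ∈ T → x < v i → StrictMono (Function.update v i x) →
      (ct c (Function.update v i x) = ct c v ↔ ∃ u : Fin (j + 1) → Fin n, StrictMono u ∧
        (∀ a, u a ∈ T) ∧ ct c (u ∘ i.castSucc.succAbove) = ct c (u ∘ i.succ.succAbove)) := by
    intro i v x hv hvT hx hlt hv'
    set u : Fin (j + 1) → Fin n := Fin.insertNth (α := fun _ => Fin n) i.castSucc x v with hu
    have hum : StrictMono u := insertNth_mono i v x hv hlt hv'
    have huT : ∀ a, u a ∈ T := by
      intro a
      by_cases ha : a = i.castSucc
      · subst ha
        rw [hu, Fin.insertNth_apply_same]; exact hx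
      · obtain ⟨a', rfl⟩ := Fin.exists_succAbove_eq ha
        rw [hu, Fin.insertNth_apply_succAbove]; exact hvT a'
    have e1 : u ∘ i.castSucc.succAbove = v := by
      funext a
      simp only [Function.comp, hu]
      exact Fin.insertNth_apply_succAbove (α := fun _ => Fin n) i.castSucc x v a
    have e2 : u ∘ i.succ.succAbove = Function.update v i x := insertNth_succ i v x
    constructor
    · intro heq
      exact ⟨u, hum, huT, by rw [e1, e2, heq]⟩
    · rintro ⟨u', hu', hu'T, heq⟩
      have := (key i u u' hum hu' huT hu'T).2 heq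
      rw [e1, e2] at this
      exact this.symm
  intro i v x hv hvT hx hne hv'
  rcases lt_or_gt_of_ne hne with hlt | hgt
  · exact main i v x hv hvT hx hlt hv'
  · have h1 : Function.update (Function.update v i x) i (v i) = v := by
      rw [Function.update_idem, Function.update_eq_self]
    have := main i (Function.update v i x) (v i) hv' (by
      intro a
      by_cases ha : a = i
      · subst ha; rw [Function.update_self]; exact hx
      · rw [Function.update_of_ne ha]; exact hvT a) (hvT i) (by
      rw [Function.update_self]; exact hgt) (by rw [h1]; exact hv)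
    rw [h1] at this
    exact eq_comm.trans this

lemma const_le (c : Finset (Fin n) → Γ) (T : Finset (Fin n)) (j : ℕ) (Q : Fin j → Prop)
    (hQ : ∀ i (v : Fin j → Fin n) (x : Fin n), StrictMono v → (∀ a, v a ∈ T) →
      x ∈ T → x ≠ v i → StrictMono (Function.update v i x) →
      (ct c (Function.update v i x) = ct c v ↔ Q i)) (hall : ∀ i, Q i)
    (u v : Fin j → Fin n) (hu : StrictMono u) (hv : StrictMono v) (huT : ∀ a, u a ∈ T)
    (hvT : ∀ a, v a ∈ T) (huv : ∀ a, u a ≤ v a) : ct c u = ct c v := by
  have hw : ∀ m : ℕ, StrictMono (fun i : Fin j => if (i : ℕ) < m then u i else v i) := by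
    intro m a b hab
    simp only
    have hab' : (a : ℕ) < b := hab
    split_ifs with h1 h2 h2
    · exact hu hab
    · exact lt_of_lt_of_le (hu hab) (huv b)
    · omega
    · exact hv hab
  have hwT : ∀ m : ℕ, ∀ i : Fin j, (if (i : ℕ) < m then u i else v i) ∈ T := by
    intro m i
    split_ifs
    · exact huT i
    · exact hvT i
  have key : ∀ m : ℕ, m ≤ j → ct c (fun i : Fin j => if (i : ℕ) < m then u i else v i) = ct c v := by
    intro m
    induction m with
    | zero => intro _; simp
    | succ m ih =>
      intro hm
      rw [← ih (by omega)]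
      have hupd : (fun i : Fin j => if (i : ℕ) < m + 1 then u i else v i) =
          Function.update (fun i : Fin j => if (i : ℕ) < m then u i else v i) ⟨m, by omega⟩
            (u ⟨m, by omega⟩) := by
        funext a
        by_cases ha : a = ⟨m, by omega⟩
        · subst ha; simp
        · rw [Function.update_of_ne ha]
          have hne : (a : ℕ) ≠ m := fun h => ha (Fin.ext h)
          by_cases h1 : (a : ℕ) < m
          · rw [if_pos h1, if_pos (by omega)]
          · rw [if_neg h1, if_neg (by omega)]
      by_cases heq : u ⟨m, by omega⟩ = v ⟨m, by omega⟩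
      · rw [hupd]
        congr 1
        rw [Function.update_eq_self_iff]
        simp [heq]
      · rw [hupd]
        refine (hQ ⟨m, by omega⟩ _ (u ⟨m, by omega⟩) (hw m) (hwT m) (huT _) ?_ ?_).2 (hall _)
        · simpa using heq
        · rw [← hupd]; exact hw (m + 1)
  have := key j le_rfl
  rw [← this]
  congr 1
  funext i
  simp

lemma const_all (c : Finset (Fin n) → Γ) (T : Finset (Fin n)) (j : ℕ) (Q : Fin j → Prop)
    (hQ : ∀ i (v : Fin j → Fin n) (x : Fin n), StrictMono v → (∀ a, v a ∈ T) →
      x ∈ T → x ≠ v i → StrictMono (Function.update v i x) →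
      (ct c (Function.update v i x) = ct c v ↔ Q i)) (hall : ∀ i, Q i)
    (K K' : Finset (Fin n)) (hK : K ⊆ T) (hK' : K' ⊆ T) (hKc : K.card = j) (hKc' : K'.card = j) :
    c K = c K' := by
  set u := K.orderEmbOfFin hKc with hu
  set v := K'.orderEmbOfFin hKc' with hv
  have e1 : Finset.univ.image u = K := Finset.image_orderEmbOfFin_univ K hKc
  have e2 : Finset.univ.image v = K' := Finset.image_orderEmbOfFin_univ K' hKc'
  have huT : ∀ a, u a ∈ T := fun a => hK (Finset.orderEmbOfFin_mem K hKc a)
  have hvT : ∀ a, v a ∈ T := fun a => hK' (Finset.orderEmbOfFin_mem K' hKc' a)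
  have hw : StrictMono (fun a => min (u a) (v a)) := fun a b hab =>
    lt_min ((min_le_left _ _).trans_lt (u.strictMono hab))
      ((min_le_right _ _).trans_lt (v.strictMono hab))
  have hwT : ∀ a, min (u a) (v a) ∈ T := by
    intro a
    rcases min_choice (u a) (v a) with h | h
    · rw [h]; exact huT a
    · rw [h]; exact hvT a
  have h1 := const_le c T j Q hQ hall _ u hw u.strictMono hwT huT (fun a => min_le_left _ _)
  have h2 := const_le c T j Q hQ hall _ v hw v.strictMono hwT hvT (fun a => min_le_right _ _)
  rw [h1] at h2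
  simp only [ct, e1, e2] at h2
  exact h2

/-- counts -/
def cnt {r : ℕ} (c : Finset (Fin n) → Fin r) (j : ℕ) (L : Finset (Fin n)) : Fin r → ℕ :=
  fun i => ((L.powersetCard j).filter (fun K => c K = i)).card

lemma alt_sum {ι : Type} [DecidableEq ι] (P : Finset ι) (f : Finset ι → ℚ) (p : ι) (hp : p ∈ P)
    (hf : ∀ E ⊆ P, p ∉ E → f (insert p E) = f E) :
    ∑ E ∈ P.powerset, (-1 : ℚ) ^ E.card * f E = 0 := by
  have h1 : P = insert p (P.erase p) := (Finset.insert_erase hp).symm
  rw [h1, Finset.sum_powerset_insert (Finset.notMem_erase p P), ← Finset.sum_add_distrib]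
  apply Finset.sum_eq_zero
  intro E hE
  rw [Finset.mem_powerset] at hE
  have hpE : p ∉ E := fun h => Finset.notMem_erase p P (hE h)
  rw [Finset.card_insert_of_notMem hpE, hf E (hE.trans (Finset.erase_subset _ _)) hpE, pow_succ]
  ring

lemma sum_powersetCard_image {ι : Type} [Fintype ι] [DecidableEq ι] (y : ι → Fin n)
    (hy : Function.Injective y) (j : ℕ) (F : Finset (Fin n) → ℚ) :
    ∑ K ∈ (Finset.univ.image y).powersetCard j, F K =
      ∑ B ∈ (Finset.univ : Finset ι).powersetCard j, F (B.image y) := by
  have h : (Finset.univ.image y).powersetCard j =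
      ((Finset.univ : Finset ι).powersetCard j).image (fun B => B.image y) := by
    ext K
    rw [Finset.mem_powersetCard, Finset.mem_image]
    constructor
    · rintro ⟨h1, h2⟩
      refine ⟨Finset.univ.filter (fun i => y i ∈ K), ?_, ?_⟩
      · rw [Finset.mem_powersetCard]
        refine ⟨Finset.subset_univ _, ?_⟩
        rw [← h2, ← Finset.card_image_of_injective _ hy]
        congr 1
        ext x
        rw [Finset.mem_image]
        constructor
        · rintro ⟨i, hi, rfl⟩
          exact (Finset.mem_filter.1 hi).2
        · intro hx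
          obtain ⟨i, _, hi⟩ := Finset.mem_image.1 (h1 hx)
          exact ⟨i, Finset.mem_filter.2 ⟨Finset.mem_univ _, by rw [hi]; exact hx⟩, hi⟩
      · ext x
        rw [Finset.mem_image]
        constructor
        · rintro ⟨i, hi, rfl⟩
          exact (Finset.mem_filter.1 hi).2
        · intro hx
          obtain ⟨i, _, hi⟩ := Finset.mem_image.1 (h1 hx)
          exact ⟨i, Finset.mem_filter.2 ⟨Finset.mem_univ _, by rw [hi]; exact hx⟩, hi⟩
    · rintro ⟨B, hB, rfl⟩
      rw [Finset.mem_powersetCard] at hB
      exact ⟨Finset.image_subset_image (Finset.subset_univ _),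
        by rw [Finset.card_image_of_injective _ hy]; exact hB.2⟩
  rw [h, Finset.sum_image]
  intro B _ B' _ hBB
  exact Finset.image_injective hy hBB

end Pool.Agent.Helper3.Col
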