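import Mathlib
import Pool.Agent.Helper3.ColMono

set_option autoImplicit false

namespace Pool.Agent.Helper3.Col

variable {n : ℕ}

/-- the transversals -/
def Yt (g : ℕ → Fin n) {l : ℕ} (E : Finset (Fin l)) (p : Fin l) : Fin n :=
  g (3 * p + 1 + if p ∈ E then 1 else 0)

lemma Yt_mono (g : ℕ → Fin n) {l : ℕ} (hg : ∀ a b, a < b → b < 3 * l → g a < g b)
    (E : Finset (Fin l)) : StrictMono (Yt g E) := by
  intro p q hpq
  have h : (p : ℕ) < q := hpq
  have hq := q.2
  unfold Yt
  apply hg
  · split_ifs <;> omega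
  · split_ifs <;> omega

lemma Yt_mem (g : ℕ → Fin n) {l : ℕ} (T : Finset (Fin n)) (hgT : ∀ a, a < 3 * l → g a ∈ T)
    (E : Finset (Fin l)) (p : Fin l) : Yt g E p ∈ T := by
  have hp := p.2
  unfold Yt
  apply hgT
  split_ifs <;> omega

lemma flip_lemma {Γ : Type} (c : Finset (Fin n) → Γ) (T : Finset (Fin n)) (j l : ℕ)
    (g : ℕ → Fin n) (hg : ∀ a b, a < b → b < 3 * l → g a < g b)
    (hgT : ∀ a, a < 3 * l → g a ∈ T) (Q : Fin j → Prop)
    (hQ : ∀ i (v : Fin j → Fin n) (x : Fin n), StrictMono v → (∀ a, v a ∈ T) →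
      x ∈ T → x ≠ v i → StrictMono (Function.update v i x) →
      (ct c (Function.update v i x) = ct c v ↔ Q i))
    (B : Finset (Fin l)) (hB : B.card = j) (E : Finset (Fin l)) (p : Fin l) (hpE : p ∉ E)
    (hp : ∀ i, B.orderEmbOfFin hB i = p → Q i) :
    c (B.image (Yt g (insert p E))) = c (B.image (Yt g E)) := by
  set f := B.orderEmbOfFin hB with hf
  have eB : Finset.univ.image f = B := Finset.image_orderEmbOfFin_univ B hB
  by_cases hpB : p ∈ B
  · have : p ∈ Finset.univ.image f := by rw [eB]; exact hpB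
    obtain ⟨i, _, hi⟩ := Finset.mem_image.1 this
    have e1 : ∀ y : Fin l → Fin n, B.image y = Finset.univ.image (y ∘ f) := by
      intro y
      rw [← Finset.image_image, eB]
    rw [e1, e1]
    have hm1 : StrictMono (Yt g (insert p E) ∘ f) := (Yt_mono g hg _).comp f.strictMono
    have hm2 : StrictMono (Yt g E ∘ f) := (Yt_mono g hg _).comp f.strictMono
    have hupd : Yt g (insert p E) ∘ f =
        Function.update (Yt g E ∘ f) i (Yt g (insert p E) p) := by
      funext a
      by_cases ha : a = i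
      · subst ha; simp [hi]
      · rw [Function.update_of_ne ha]
        have hne : f a ≠ p := by
          rw [← hi]
          exact fun h => ha (f.injective h)
        simp [Yt, hne]
    have h := (hQ i (Yt g E ∘ f) (Yt g (insert p E) p) hm2 (fun a => Yt_mem g T hgT E _)
      (Yt_mem g T hgT _ p) (by
        simp only [Function.comp, hi]
        unfold Yt
        have hpl := p.2
        rw [if_pos (Finset.mem_insert_self _ _), if_neg hpE]
        exact (hg _ _ (by omega) (by omega)).ne') (by rw [← hupd]; exact hm1)).2 (hp i hi)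
    rw [← hupd] at h
    exact h
  · congr 1
    apply Finset.image_congr
    intro q hq
    have hne : q ≠ p := fun h => hpB (h ▸ hq)
    simp [Yt, hne]

lemma distinct_lemma {r : ℕ} (c : Finset (Fin n) → Fin r) (T : Finset (Fin n)) (j l : ℕ)
    (g : ℕ → Fin n) (hg : ∀ a b, a < b → b < 3 * l → g a < g b)
    (hgT : ∀ a, a < 3 * l → g a ∈ T) (Q : Fin j → Prop)
    (hQ : ∀ i (v : Fin j → Fin n) (x : Fin n), StrictMono v → (∀ a, v a ∈ T) →
      x ∈ T → x ≠ v i → StrictMono (Function.update v i x) →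
      (ct c (Function.update v i x) = ct c v ↔ Q i))
    (hHom : ∀ t ≤ 2 * j, Hom c T t)
    (f : Fin j → Fin l) (hf : StrictMono f) (i : Fin j) (hi : ¬ Q i)
    (E : Finset (Fin l)) (hE : f i ∈ E)
    (hcnt : cnt c j (Finset.univ.image (Yt g E)) =
      cnt c j (Finset.univ.image (Yt g (∅ : Finset (Fin l))))) : False := by
  classical
  set p := f i with hp
  have hpl := p.2
  -- indices
  have hinj : ∀ a b, a < 3 * l → b < 3 * l → g a = g b → a = b := by
    intro a b ha hb h
    rcases lt_trichotomy a b with h1 | h1 | h1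
    · exact absurd h (hg a b h1 hb).ne
    · exact h1
    · exact absurd h (hg b a h1 ha).ne'
  have hgiff : ∀ a b, a < 3 * l → b < 3 * l → (g a < g b ↔ a < b) := by
    intro a b ha hb
    constructor
    · intro h
      by_contra hcon
      rcases Nat.lt_or_eq_of_le (not_lt.1 hcon) with h1 | h1
      · exact absurd h (not_lt_of_gt (hg b a h1 ha))
      · subst h1; exact absurd h (lt_irrefl _)
    · intro h; exact hg a b h hb
  set v : Fin j → Fin n := Yt g ∅ ∘ f with hv
  have hvm : StrictMono v := (Yt_mono g hg _).comp hf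
  set b : Finset (Fin n) := Finset.univ.image v with hb
  -- the colour of b occurs in Y_E
  have hbmem : b ∈ ((Finset.univ.image (Yt g (∅ : Finset (Fin l)))).powersetCard j).filter
      (fun K => c K = c b) := by
    rw [Finset.mem_filter, Finset.mem_powersetCard]
    refine ⟨⟨?_, ?_⟩, rfl⟩
    · intro x hx
      obtain ⟨a, _, rfl⟩ := Finset.mem_image.1 hx
      exact Finset.mem_image_of_mem _ (Finset.mem_univ _)
    · rw [hb, Finset.card_image_of_injective _ hvm.injective, Finset.card_univ, Fintype.card_fin]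
  have hpos : 0 < cnt c j (Finset.univ.image (Yt g E)) (c b) := by
    rw [hcnt]
    exact Finset.card_pos.2 ⟨b, hbmem⟩
  obtain ⟨K, hK⟩ := Finset.card_pos.1 hpos
  rw [Finset.mem_filter, Finset.mem_powersetCard] at hK
  obtain ⟨⟨hKsub, hKc⟩, hKcol⟩ := hK
  -- all elements of S = b ∪ K have index ≢ 0 mod 3
  have hbidx : ∀ x ∈ b, ∃ a, a < 3 * l ∧ a % 3 ≠ 0 ∧ x = g a := by
    intro x hx
    obtain ⟨a, _, rfl⟩ := Finset.mem_image.1 hx
    have := (f a).2
    refine ⟨3 * (f a : ℕ) + 1 + if f a ∈ (∅ : Finset (Fin l)) then 1 else 0, ?_, ?_, rfl⟩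
    · rw [if_neg (Finset.notMem_empty _)]; omega
    · rw [if_neg (Finset.notMem_empty _)]; omega
  have hKidx : ∀ x ∈ K, ∃ a, a < 3 * l ∧ a % 3 ≠ 0 ∧ a ≠ 3 * p + 1 ∧ x = g a := by
    intro x hx
    obtain ⟨q, _, rfl⟩ := Finset.mem_image.1 (hKsub hx)
    have := q.2
    refine ⟨3 * (q : ℕ) + 1 + if q ∈ E then 1 else 0, ?_, ?_, ?_, rfl⟩
    · split_ifs <;> omega
    · split_ifs <;> omega
    · intro h
      split_ifs at h with h1
      · omega
      · have h2 : q = p := Fin.ext (by omega)
        rw [h2] at h1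
        exact h1 hE
  set S := b ∪ K with hS
  have hSidx : ∀ x ∈ S, ∃ a, a < 3 * l ∧ a % 3 ≠ 0 ∧ x = g a := by
    intro x hx
    rcases Finset.mem_union.1 hx with h | h
    · exact hbidx x h
    · obtain ⟨a, h1, h2, _, h3⟩ := hKidx x h
      exact ⟨a, h1, h2, h3⟩
  have hSc : S.card ≤ 2 * j := by
    refine (Finset.card_union_le _ _).trans ?_
    rw [hKc, hb, Finset.card_image_of_injective _ hvm.injective, Finset.card_univ,
      Fintype.card_fin]
    omega
  set u := S.orderEmbOfFin rfl with hu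
  have hrange : ∀ x ∈ S, ∃ a, u a = x := by
    intro x hx
    have : x ∈ Finset.univ.image u := by
      rw [Finset.image_orderEmbOfFin_univ]; exact hx
    obtain ⟨a, _, ha⟩ := Finset.mem_image.1 this
    exact ⟨a, ha⟩
  have huS : ∀ a, u a ∈ S := fun a => Finset.orderEmbOfFin_mem S rfl a
  set x0 := g (3 * p + 1) with hx0
  set x1 := g (3 * p) with hx1
  let θ : Fin n → Fin n := fun x => if x = x0 then x1 else x
  have hθm : StrictMono (θ ∘ u) := by
    intro a a' haa
    have h1 : u a < u a' := u.strictMono haa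
    obtain ⟨k, hk, hk3, hka⟩ := hSidx _ (huS a)
    obtain ⟨k', hk', hk3', hka'⟩ := hSidx _ (huS a')
    simp only [Function.comp, θ]
    rw [hka, hka'] at h1 ⊢
    rw [hgiff k k' hk hk'] at h1
    have e1 : (g k = x0) ↔ k = 3 * p + 1 :=
      ⟨fun h => hinj _ _ hk (by omega) h, fun h => by rw [h]⟩
    have e2 : (g k' = x0) ↔ k' = 3 * p + 1 :=
      ⟨fun h => hinj _ _ hk' (by omega) h, fun h => by rw [h]⟩
    by_cases h2 : k = 3 * p + 1
    · rw [if_pos (e1.2 h2), if_neg (fun h => by have := e2.1 h; omega)]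
      exact hg _ _ (by omega) hk'
    · rw [if_neg (fun h => h2 (e1.1 h))]
      by_cases h3 : k' = 3 * p + 1
      · rw [if_pos (e2.2 h3)]
        exact hg _ _ (by omega) (by omega)
      · rw [if_neg (fun h => h3 (e2.1 h))]
        exact hg _ _ h1 hk'
  have huT : ∀ a, u a ∈ T := by
    intro a
    obtain ⟨k, hk, _, hka⟩ := hSidx _ (huS a)
    rw [hka]; exact hgT k hk
  have hθT : ∀ a, (θ ∘ u) a ∈ T := by
    intro a
    simp only [Function.comp, θ]
    split_ifs
    · exact hgT _ (by omega)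
    · exact huT a
  let Ib : Finset (Fin S.card) := Finset.univ.filter (fun a => u a ∈ b)
  let IK : Finset (Fin S.card) := Finset.univ.filter (fun a => u a ∈ K)
  have eIb : Ib.image u = b := by
    ext x
    rw [Finset.mem_image]
    constructor
    · rintro ⟨a, ha, rfl⟩
      exact (Finset.mem_filter.1 ha).2
    · intro hx
      obtain ⟨a, ha⟩ := hrange x (Finset.mem_union_left _ hx)
      exact ⟨a, Finset.mem_filter.2 ⟨Finset.mem_univ _, by rw [ha]; exact hx⟩, ha⟩
  have eIK : IK.image u = K := by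
    ext x
    rw [Finset.mem_image]
    constructor
    · rintro ⟨a, ha, rfl⟩
      exact (Finset.mem_filter.1 ha).2
    · intro hx
      obtain ⟨a, ha⟩ := hrange x (Finset.mem_union_right _ hx)
      exact ⟨a, Finset.mem_filter.2 ⟨Finset.mem_univ _, by rw [ha]; exact hx⟩, ha⟩
  have hpat := hHom S.card hSc u (θ ∘ u) u.strictMono hθm huT hθT Ib IK
  rw [eIb, eIK, ← Finset.image_image, ← Finset.image_image, eIb, eIK] at hpat
  have h1 := hpat.1 hKcol.symm
  -- θ fixes K
  have hθK : K.image θ = K := by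
    have : K.image θ = K.image id := by
      apply Finset.image_congr
      intro x hx
      obtain ⟨a, ha, _, hane, rfl⟩ := hKidx x hx
      have : g a ≠ x0 := fun h => hane (hinj _ _ ha (by omega) h)
      simp [θ, this]
    rw [this, Finset.image_id]
  rw [hθK, hKcol] at h1
  -- θ b = update
  have hvi : v i = x0 := by
    simp [hv, Yt, ← hp, hx0]
  have hupd : θ ∘ v = Function.update v i x1 := by
    funext a
    by_cases ha : a = i
    · subst ha
      simp [θ, hvi]
    · rw [Function.update_of_ne ha]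
      have : v a ≠ x0 := by
        rw [← hvi]
        exact fun h => ha (hvm.injective h)
      simp [θ, this]
  have hθb : b.image θ = Finset.univ.image (Function.update v i x1) := by
    rw [hb, Finset.image_image, hupd]
  rw [hθb] at h1
  apply hi
  refine (hQ i v x1 hvm (fun a => Yt_mem g T hgT _ _) (hgT _ (by omega)) ?_ ?_).1 h1
  · rw [hvi]
    exact (hg _ _ (by omega) (by omega)).ne
  · rw [← hupd]
    intro a a' haa
    have hS1 : v a ∈ S := Finset.mem_union_left _ (Finset.mem_image_of_mem _ (Finset.mem_univ _))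
    have hS2 : v a' ∈ S := Finset.mem_union_left _ (Finset.mem_image_of_mem _ (Finset.mem_univ _))
    obtain ⟨k, hk⟩ := hrange _ hS1
    obtain ⟨k', hk'⟩ := hrange _ hS2
    have h2 : k < k' := by
      rw [← u.strictMono.lt_iff_lt, hk, hk']
      exact hvm haa
    have h3 := hθm h2
    simp only [Function.comp] at h3 ⊢
    rw [hk, hk'] at h3
    exact h3

/-- Under the dual functionals, no position is sensitive. -/
lemma no_sens {r : ℕ} (c : Finset (Fin n) → Fin r) (S T : Finset (Fin n)) (hTS : T ⊆ S)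
    (j l : ℕ) (hjl : j < l) (hT : 3 * l ≤ T.card) (hHom : ∀ t ≤ 2 * j, Hom c T t)
    (Q : Fin j → Prop)
    (hQ : ∀ i (v : Fin j → Fin n) (x : Fin n), StrictMono v → (∀ a, v a ∈ T) →
      x ∈ T → x ≠ v i → StrictMono (Function.update v i x) →
      (ct c (Function.update v i x) = ct c v ↔ Q i))
    (hdual : ∀ y0 ⊆ S, y0.card = l → ∃ (φ : Fin r → ℚ) (κ : ℚ), ∀ y ⊆ S, y.card = l →
      κ + ∑ K ∈ y.powersetCard j, φ (c K) = if cnt c j y = cnt c j y0 then 1 else 0) :
    ∀ i, Q i := by
  classical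
  by_contra hcon
  push Not at hcon
  obtain ⟨i0, hi0⟩ := hcon
  -- enumeration
  set e := T.orderEmbOfFin rfl with he
  have hTpos : 0 < T.card := by omega
  let g : ℕ → Fin n := fun a => if h : a < T.card then e ⟨a, h⟩ else e ⟨0, hTpos⟩
  have hgval : ∀ a (h : a < T.card), g a = e ⟨a, h⟩ := fun a h => dif_pos h
  have hg : ∀ a b, a < b → b < 3 * l → g a < g b := by
    intro a b hab hb
    rw [hgval a (by omega), hgval b (by omega)]
    exact e.strictMono hab
  have hgT : ∀ a, a < 3 * l → g a ∈ T := by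
    intro a ha
    rw [hgval a (by omega)]
    exact Finset.orderEmbOfFin_mem T rfl _
  let I : Finset (Fin j) := Finset.univ.filter (fun i => ¬ Q i)
  have hIne : I.Nonempty := ⟨i0, Finset.mem_filter.2 ⟨Finset.mem_univ _, hi0⟩⟩
  set im := I.max' hIne with him
  have himI : im ∈ I := Finset.max'_mem I hIne
  have himQ : ¬ Q im := (Finset.mem_filter.1 himI).2
  let top : Fin l := ⟨im + 1, by have := im.2; omega⟩
  let cl : Fin j → Fin l := fun i => ⟨i, by have := i.2; omega⟩
  let P : Finset (Fin l) := insert top (I.image cl)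
  have hclinj : Function.Injective cl := fun a b h => Fin.ext (by simpa [cl] using h)
  have htop : top ∉ I.image cl := by
    intro h
    obtain ⟨a, ha, hat⟩ := Finset.mem_image.1 h
    have h1 : a ≤ im := Finset.le_max' I a ha
    have h2 : (a : ℕ) = im + 1 := by simpa [cl, top] using hat
    have h3 : (a : ℕ) ≤ im := h1
    omega
  have hPc : P.card = I.card + 1 := by
    rw [Finset.card_insert_of_notMem htop, Finset.card_image_of_injective _ hclinj]
  have hPne : P.Nonempty := ⟨top, Finset.mem_insert_self _ _⟩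
  -- every element of P is visible
  have hvis : ∀ p ∈ P, ∃ f : Fin j → Fin l, StrictMono f ∧ ∃ i, ¬ Q i ∧ f i = p := by
    intro p hp
    rcases Finset.mem_insert.1 hp with rfl | hp
    · refine ⟨fun a => ⟨a + 1, by have := a.2; omega⟩, ?_, im, himQ, rfl⟩
      intro a b hab
      have : (a : ℕ) < b := hab
      show (a : ℕ) + 1 < b + 1
      omega
    · obtain ⟨a, ha, rfl⟩ := Finset.mem_image.1 hp
      exact ⟨cl, fun a b hab => hab, a, (Finset.mem_filter.1 ha).2, rfl⟩
  have hYc : ∀ E : Finset (Fin l), (Finset.univ.image (Yt g E)).card = l := by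
    intro E
    rw [Finset.card_image_of_injective _ (Yt_mono g hg E).injective, Finset.card_univ,
      Fintype.card_fin]
  have hYS : ∀ E : Finset (Fin l), Finset.univ.image (Yt g E) ⊆ S := by
    intro E x hx
    obtain ⟨a, _, rfl⟩ := Finset.mem_image.1 hx
    exact hTS (Yt_mem g T hgT E a)
  obtain ⟨φ, κ, hφ⟩ := hdual _ (hYS ∅) (hYc ∅)
  have hR : ∑ E ∈ P.powerset, (-1 : ℚ) ^ E.card *
      (κ + ∑ K ∈ (Finset.univ.image (Yt g E)).powersetCard j, φ (c K)) = 1 := by
    rw [Finset.sum_eq_single_of_mem ∅ (Finset.empty_mem_powerset P)]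
    · rw [hφ _ (hYS ∅) (hYc ∅)]; simp
    · intro E hE hne
      rw [hφ _ (hYS E) (hYc E), if_neg, mul_zero]
      intro hcnt
      obtain ⟨p, hp⟩ := Finset.nonempty_iff_ne_empty.2 hne
      obtain ⟨f, hf, i, hi, hfi⟩ := hvis p (Finset.mem_powerset.1 hE hp)
      exact distinct_lemma c T j l g hg hgT Q hQ hHom f hf i hi E (by rw [hfi]; exact hp) hcnt
  have hL : ∑ E ∈ P.powerset, (-1 : ℚ) ^ E.card *
      (κ + ∑ K ∈ (Finset.univ.image (Yt g E)).powersetCard j, φ (c K)) = 0 := by
    have h1 : ∀ E : Finset (Fin l), (κ + ∑ K ∈ (Finset.univ.image (Yt g E)).powersetCard j,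
        φ (c K)) = κ + ∑ B ∈ (Finset.univ : Finset (Fin l)).powersetCard j,
          φ (c (B.image (Yt g E))) := by
      intro E
      rw [sum_powersetCard_image (Yt g E) (Yt_mono g hg E).injective]
    simp_rw [h1, mul_add, Finset.sum_add_distrib, Finset.mul_sum]
    obtain ⟨p0, hp0⟩ := hPne
    have h2 : ∑ E ∈ P.powerset, (-1 : ℚ) ^ E.card * κ = 0 :=
      alt_sum P (fun _ => κ) p0 hp0 (fun _ _ _ => rfl)
    rw [h2, zero_add, Finset.sum_comm]
    apply Finset.sum_eq_zero
    intro B hB
    have hBc : B.card = j := (Finset.mem_powersetCard.1 hB).2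
    -- choose p ∈ P outside the sensitive elements of B
    have hex : ∃ p ∈ P, p ∉ I.image (B.orderEmbOfFin hBc) := by
      by_contra hcon2
      push Not at hcon2
      have h3 := Finset.card_le_card (show P ⊆ I.image (B.orderEmbOfFin hBc) from hcon2)
      have h4 := Finset.card_image_le (s := I) (f := B.orderEmbOfFin hBc)
      omega
    obtain ⟨p, hp, hpI⟩ := hex
    refine alt_sum P (fun E => φ (c (B.image (Yt g E)))) p hp ?_
    intro E _ hpE
    rw [flip_lemma c T j l g hg hgT Q hQ B hBc E p hpE]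
    intro i hi
    by_contra hQi
    exact hpI (Finset.mem_image.2 ⟨i, Finset.mem_filter.2 ⟨Finset.mem_univ _, hQi⟩, hi⟩)
  rw [hL] at hR
  exact absurd hR (by norm_num)

/-- Lemma M. -/
theorem mono_of_dual (j l : ℕ) (hjl : j < l) (m : ℕ) : ∃ N, ∀ (n r : ℕ) (S : Finset (Fin n)),
    N ≤ S.card → ∀ c : Finset (Fin n) → Fin r,
    (∀ y0 ⊆ S, y0.card = l → ∃ (φ : Fin r → ℚ) (κ : ℚ), ∀ y ⊆ S, y.card = l →
      κ + ∑ K ∈ y.powersetCard j, φ (c K) = if cnt c j y = cnt c j y0 then 1 else 0) →
    ∃ T ⊆ S, m ≤ T.card ∧ ∀ K ⊆ T, ∀ K' ⊆ T, K.card = j → K'.card = j → c K = c K' := by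
  obtain ⟨N, hN⟩ := homAll (2 * j + 1) (max m (3 * l))
  refine ⟨N, fun n r S hS c hdual => ?_⟩
  obtain ⟨T, hT, hTc, hHom⟩ := hN n S hS (Fin r) c
  obtain ⟨Q, hQ⟩ := slemma c T j (hHom (j + 1) (by omega))
  have hall := no_sens c S T hT j l hjl (le_trans (le_max_right _ _) hTc)
    (fun t ht => hHom t (by omega)) Q hQ hdual
  exact ⟨T, hT, le_trans (le_max_left _ _) hTc, fun K hK K' hK' h1 h2 =>
    const_all c T j Q hQ hall K K' hK hK' h1 h2⟩

end Pool.Agent.Helper3.Col
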