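import Mathlib
import Pool.Agent.Helper3.ColSens

set_option autoImplicit false

namespace Pool.Agent.Helper3.Col

variable {n : ℕ}

lemma sum_eq_of_const {α M : Type} [AddCommMonoid M] (s t : Finset α) (F : α → M)
    (hc : s.card = t.card) (h : ∀ a ∈ s, ∀ b ∈ t, F a = F b) : ∑ a ∈ s, F a = ∑ b ∈ t, F b := by
  rcases t.eq_empty_or_nonempty with rfl | ⟨b0, hb0⟩
  · rw [Finset.card_empty, Finset.card_eq_zero] at hc
    subst hc
    rfl
  · have hs : s.Nonempty := by
      rw [← Finset.card_pos, hc]; exact Finset.card_pos.2 ⟨b0, hb0⟩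
    obtain ⟨a0, ha0⟩ := hs
    rw [Finset.sum_congr rfl (g := fun _ => F b0) (fun a ha => h a ha b0 hb0),
      Finset.sum_congr (s₁ := t) rfl (g := fun _ => F b0)
        (fun b hb => by rw [← h a0 ha0 b hb, h a0 ha0 b0 hb0]),
      Finset.sum_const, Finset.sum_const, hc]

lemma sum_split {M : Type} [AddCommMonoid M] (k : ℕ) (z y : Finset (Fin n)) (hzy : Disjoint z y)
    (hz : z.card ≤ k) (F : Finset (Fin n) → M) :
    ∑ K ∈ (z ∪ y).powersetCard k, F K =
      ∑ z' ∈ z.powerset, ∑ b ∈ y.powersetCard (k - z'.card), F (z' ∪ b) := by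
  rw [Finset.sum_sigma']
  refine Finset.sum_bij' (fun K _ => (⟨K ∩ z, K ∩ y⟩ : Σ _ : Finset (Fin n), Finset (Fin n)))
    (fun p _ => p.1 ∪ p.2) ?_ ?_ ?_ ?_ ?_
  · intro K hK
    rw [Finset.mem_powersetCard] at hK
    have hKe : K = (K ∩ z) ∪ (K ∩ y) := by
      rw [← Finset.inter_union_distrib_left, Finset.inter_eq_left.2 hK.1]
    have hd : Disjoint (K ∩ z) (K ∩ y) :=
      hzy.mono Finset.inter_subset_right Finset.inter_subset_right
    have hc : (K ∩ z).card + (K ∩ y).card = k := by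
      rw [← Finset.card_union_of_disjoint hd, ← hKe, hK.2]
    simp only [Finset.mem_sigma, Finset.mem_powerset, Finset.mem_powersetCard]
    exact ⟨Finset.inter_subset_right, Finset.inter_subset_right, by omega⟩
  · rintro ⟨z', b⟩ hp
    simp only [Finset.mem_sigma, Finset.mem_powerset, Finset.mem_powersetCard] at hp
    obtain ⟨h1, h2, h3⟩ := hp
    rw [Finset.mem_powersetCard]
    refine ⟨Finset.union_subset_union h1 h2, ?_⟩
    rw [Finset.card_union_of_disjoint (hzy.mono h1 h2), h3]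
    have := Finset.card_le_card h1
    omega
  · intro K hK
    rw [Finset.mem_powersetCard] at hK
    simp only
    rw [← Finset.inter_union_distrib_left, Finset.inter_eq_left.2 hK.1]
  · rintro ⟨z', b⟩ hp
    simp only [Finset.mem_sigma, Finset.mem_powerset, Finset.mem_powersetCard] at hp
    obtain ⟨h1, h2, h3⟩ := hp
    have hd1 : Disjoint b z := (hzy.mono_right h2).symm
    have hd2 : Disjoint z' y := hzy.mono_left h1
    simp only [Finset.union_inter_distrib_right]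
    rw [Finset.inter_eq_left.2 h1, Finset.inter_eq_left.2 h2, Finset.disjoint_iff_inter_eq_empty.1 hd1,
      Finset.disjoint_iff_inter_eq_empty.1 hd2, Finset.union_empty, Finset.empty_union]
  · intro K hK
    rw [Finset.mem_powersetCard] at hK
    simp only
    rw [← Finset.inter_union_distrib_left, Finset.inter_eq_left.2 hK.1]

lemma cnt_eq_sum {r : ℕ} (c : Finset (Fin n) → Fin r) (j : ℕ) (L : Finset (Fin n)) (i : Fin r) :
    cnt c j L i = ∑ K ∈ L.powersetCard j, if c K = i then 1 else 0 := by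
  rw [cnt, Finset.card_filter]

/-- constancy of the colour on `z ∪ b`. -/
def Const {Γ : Type} (c : Finset (Fin n) → Γ) (k : ℕ) (z Y : Finset (Fin n)) : Prop :=
  ∀ b ⊆ Y, ∀ b' ⊆ Y, b.card = k - z.card → b'.card = k - z.card → c (z ∪ b) = c (z ∪ b')

lemma Const.mono {Γ : Type} {c : Finset (Fin n) → Γ} {k : ℕ} {z Y Y' : Finset (Fin n)}
    (h : Const c k z Y) (hY : Y' ⊆ Y) : Const c k z Y' :=
  fun b hb b' hb' h1 h2 => h b (hb.trans hY) b' (hb'.trans hY) h1 h2

lemma split_const {M : Type} [AddCommMonoid M] {Γ : Type} (c : Finset (Fin n) → Γ) (k l : ℕ)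
    (z Y : Finset (Fin n)) (hzY : Disjoint z Y) (hzk : z.card ≤ k)
    (hconst : ∀ z' ⊂ z, Const c k z' Y) (F : Γ → M) (y0 : Finset (Fin n)) (hy0 : y0 ⊆ Y)
    (hy0c : y0.card = l) (y : Finset (Fin n)) (hy : y ⊆ Y) (hyc : y.card = l) :
    ∑ K ∈ (z ∪ y).powersetCard k, F (c K) =
      (∑ z' ∈ z.powerset.erase z, ∑ b ∈ y0.powersetCard (k - z'.card), F (c (z' ∪ b))) +
      ∑ b ∈ y.powersetCard (k - z.card), F (c (z ∪ b)) := by
  rw [sum_split k z y (hzY.mono_right hy) hzk,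
    ← Finset.sum_erase_add _ _ (Finset.mem_powerset_self z)]
  congr 1
  apply Finset.sum_congr rfl
  intro z' hz'
  rw [Finset.mem_erase, Finset.mem_powerset] at hz'
  apply sum_eq_of_const
  · rw [Finset.card_powersetCard, Finset.card_powersetCard, hyc, hy0c]
  · intro b hb b' hb'
    rw [Finset.mem_powersetCard] at hb hb'
    rw [hconst z' (Finset.ssubset_iff_subset_ne.2 ⟨hz'.2, hz'.1⟩) b (hb.1.trans hy) b'
      (hb'.1.trans hy0) hb.2 hb'.2]

lemma reduce {r : ℕ} (c : Finset (Fin n) → Fin r) (k l : ℕ)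
    (hdual : ∀ L0 : Finset (Fin n), L0.card = l → ∃ φ : Fin r → ℚ, ∀ L : Finset (Fin n),
      L.card = l → ∑ K ∈ L.powersetCard k, φ (c K) = if cnt c k L = cnt c k L0 then 1 else 0)
    (z Y : Finset (Fin n)) (hzY : Disjoint z Y) (hzk : z.card ≤ k) (hkl : k < l)
    (hconst : ∀ z' ⊂ z, Const c k z' Y) :
    ∀ y0 ⊆ Y, y0.card = l - z.card → ∃ (φ : Fin r → ℚ) (κ : ℚ), ∀ y ⊆ Y, y.card = l - z.card →
      κ + ∑ K ∈ y.powersetCard (k - z.card), φ ((fun b => c (z ∪ b)) K) =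
        if cnt (fun b => c (z ∪ b)) (k - z.card) y = cnt (fun b => c (z ∪ b)) (k - z.card) y0
        then 1 else 0 := by
  intro y0 hy0 hy0c
  have hcard : ∀ y ⊆ Y, y.card = l - z.card → (z ∪ y).card = l := by
    intro y hy hyc
    rw [Finset.card_union_of_disjoint (hzY.mono_right hy), hyc]
    omega
  obtain ⟨φ, hφ⟩ := hdual (z ∪ y0) (hcard y0 hy0 hy0c)
  refine ⟨φ, ∑ z' ∈ z.powerset.erase z, ∑ b ∈ y0.powersetCard (k - z'.card), φ (c (z' ∪ b)),
    fun y hy hyc => ?_⟩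
  have h1 := hφ (z ∪ y) (hcard y hy hyc)
  rw [split_const c k (l - z.card) z Y hzY hzk hconst φ y0 hy0 hy0c y hy hyc] at h1
  rw [h1]
  have h2 : ∀ y ⊆ Y, y.card = l - z.card → ∀ i, cnt c k (z ∪ y) i =
      (∑ z' ∈ z.powerset.erase z, ∑ b ∈ y0.powersetCard (k - z'.card),
        if c (z' ∪ b) = i then 1 else 0) + cnt (fun b => c (z ∪ b)) (k - z.card) y i := by
    intro y hy hyc i
    rw [cnt_eq_sum, cnt_eq_sum]
    exact split_const c k (l - z.card) z Y hzY hzk hconst (fun γ => if γ = i then 1 else 0)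
      y0 hy0 hy0c y hy hyc
  have h3 : (cnt c k (z ∪ y) = cnt c k (z ∪ y0)) ↔
      (cnt (fun b => c (z ∪ b)) (k - z.card) y = cnt (fun b => c (z ∪ b)) (k - z.card) y0) := by
    rw [funext_iff, funext_iff]
    refine forall_congr' fun i => ?_
    rw [h2 y hy hyc i, h2 y0 hy0 hy0c i]
    exact Nat.add_left_cancel_iff
  simp only [h3]

theorem fam (k l : ℕ) (hkl : k < l) (q : ℕ) : ∀ m : ℕ, ∃ N, ∀ (n r : ℕ)
    (c : Finset (Fin n) → Fin r)
    (_ : ∀ L0 : Finset (Fin n), L0.card = l → ∃ φ : Fin r → ℚ, ∀ L : Finset (Fin n),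
      L.card = l → ∑ K ∈ L.powersetCard k, φ (c K) = if cnt c k L = cnt c k L0 then 1 else 0)
    (A : Finset (Fin n)) (_ : A.card = k) (𝓕 : Finset (Finset (Fin n))) (_ : 𝓕.card = q)
    (_ : ∀ z ∈ 𝓕, z ⊆ A) (_ : ∀ z ∈ 𝓕, ∀ z' ⊆ z, z' ∈ 𝓕) (Y : Finset (Fin n))
    (_ : Disjoint A Y) (_ : N ≤ Y.card), ∃ Y' ⊆ Y, m ≤ Y'.card ∧ ∀ z ∈ 𝓕, Const c k z Y' := by
  induction q with
  | zero =>
    intro m
    refine ⟨m, fun n r c _ A _ 𝓕 h𝓕 _ _ Y _ hY => ⟨Y, subset_rfl, hY, fun z hz => ?_⟩⟩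
    rw [Finset.card_eq_zero.1 h𝓕] at hz
    exact absurd hz (Finset.notMem_empty z)
  | succ q ih =>
    intro m
    choose Nm hNm using fun (s : ℕ) (hs : s ≤ k) =>
      mono_of_dual (k - s) (l - s) (by omega) m
    let Ns : ℕ → ℕ := fun s => if h : s ≤ k then Nm s h else 0
    obtain ⟨N, hN⟩ := ih ((Finset.range (k + 1)).sup Ns)
    refine ⟨N, fun n r c hdual A hA 𝓕 h𝓕 hsub hdown Y hAY hY => ?_⟩
    have hne : 𝓕.Nonempty := Finset.card_pos.1 (by omega)
    obtain ⟨z, hz, hzmax⟩ := Finset.exists_max_image 𝓕 Finset.card hne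
    obtain ⟨Y1, hY1, hY1c, hc1⟩ := hN n r c hdual A hA (𝓕.erase z)
      (by rw [Finset.card_erase_of_mem hz]; omega)
      (fun w hw => hsub w (Finset.mem_of_mem_erase hw))
      (by
        intro w hw w' hw'
        rw [Finset.mem_erase] at hw
        rw [Finset.mem_erase]
        refine ⟨?_, hdown w hw.2 w' hw'⟩
        rintro rfl
        exact hw.1 (Finset.eq_of_subset_of_card_le hw' (hzmax w hw.2)).symm) Y hAY hY
    have hzk : z.card ≤ k := by
      rw [← hA]; exact Finset.card_le_card (hsub z hz)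
    have hzY1 : Disjoint z Y1 := hAY.mono (hsub z hz) hY1
    have hred := reduce c k l hdual z Y1 hzY1 hzk hkl (by
      intro z' hz'
      apply hc1
      rw [Finset.mem_erase]
      exact ⟨hz'.ne, hdown z hz z' hz'.subset⟩)
    have hle : Nm z.card hzk ≤ Y1.card := by
      refine le_trans ?_ hY1c
      have h1 : Ns z.card = Nm z.card hzk := dif_pos hzk
      rw [← h1]
      exact Finset.le_sup (f := Ns) (Finset.mem_range.2 (by omega))
    obtain ⟨T, hT, hTc, hTconst⟩ := hNm z.card hzk n r Y1 hle (fun b => c (z ∪ b)) hred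
    refine ⟨T, hT.trans hY1, hTc, fun w hw => ?_⟩
    by_cases hwz : w = z
    · subst hwz
      intro b hb b' hb' h1 h2
      exact hTconst b hb b' hb' h1 h2
    · exact (hc1 w (Finset.mem_erase.2 ⟨hwz, hw⟩)).mono hT

end Pool.Agent.Helper3.Col
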