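import Mathlib
import Pool.Agent.Helper3.ColFam

set_option autoImplicit false

namespace Pool.Agent.Helper3.Col

variable {n : ℕ}

lemma sum_insert_pc (k : ℕ) (L : Finset (Fin n)) (x : Fin n) (hx : x ∉ L)
    (g : Finset (Fin n) → ℚ) : ∑ K ∈ (insert x L).powersetCard (k + 1), g K =
      ∑ K ∈ L.powersetCard (k + 1), g K + ∑ B ∈ L.powersetCard k, g (insert x B) := by
  rw [Finset.powersetCard_succ_insert hx, Finset.sum_union, Finset.sum_image]
  · intro B hB B' hB' h
    have hB1 := (Finset.mem_powersetCard.1 hB).1
    have hB2 := (Finset.mem_powersetCard.1 hB').1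
    have h1 : (insert x B).erase x = B := Finset.erase_insert (fun h => hx (hB1 h))
    have h2 : (insert x B').erase x = B' := Finset.erase_insert (fun h => hx (hB2 h))
    rw [← h1, ← h2]
    exact congrArg (fun s => s.erase x) h
  · rw [Finset.disjoint_left]
    intro K hK hK'
    obtain ⟨B, _, rfl⟩ := Finset.mem_image.1 hK'
    exact hx ((Finset.mem_powersetCard.1 hK).1 (Finset.mem_insert_self x B))

/-- Inclusion matrices have full rank. -/
lemma inj_lemma (k : ℕ) : ∀ (l : ℕ) (_ : k ≤ l) (X : Finset (Fin n)) (_ : k + l ≤ X.card)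
    (g : Finset (Fin n) → ℚ), (∀ L ⊆ X, L.card = l → ∑ K ∈ L.powersetCard k, g K = 0) →
    ∀ K ⊆ X, K.card = k → g K = 0 := by
  induction k with
  | zero =>
    intro l _ X hX g hg K _ hK
    obtain ⟨L, hL, hLc⟩ := Finset.exists_subset_card_eq (show l ≤ X.card by omega)
    have := hg L hL hLc
    rw [Finset.powersetCard_zero, Finset.sum_singleton] at this
    rw [Finset.card_eq_zero.1 hK]
    exact this
  | succ k ih =>
    intro l hkl X hX g hg
    obtain ⟨l, rfl⟩ : ∃ l', l = l' + 1 := ⟨l - 1, by omega⟩
    have hswap : ∀ x ∈ X, ∀ y ∈ X, x ≠ y → ∀ B ⊆ (X.erase x).erase y, B.card = k →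
        g (insert x B) = g (insert y B) := by
      intro x hx y hy hxy B hB hBc
      have hyx : y ∈ X.erase x := Finset.mem_erase.2 ⟨hxy.symm, hy⟩
      have h1 := ih l (by omega) ((X.erase x).erase y) (by
        rw [Finset.card_erase_of_mem hyx, Finset.card_erase_of_mem hx]; omega)
        (fun B => g (insert x B) - g (insert y B)) (by
          intro L hL hLc
          have hxL : x ∉ L := fun h => by
            have := hL h
            simp at this
          have hyL : y ∉ L := fun h => by
            have := hL h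
            simp at this
          have hLX : L ⊆ X := fun a ha => by
            have := hL ha
            rw [Finset.mem_erase, Finset.mem_erase] at this
            exact this.2.2
          have e1 := hg (insert x L) (Finset.insert_subset hx hLX)
            (by rw [Finset.card_insert_of_notMem hxL, hLc])
          have e2 := hg (insert y L) (Finset.insert_subset hy hLX)
            (by rw [Finset.card_insert_of_notMem hyL, hLc])
          rw [sum_insert_pc k L x hxL] at e1
          rw [sum_insert_pc k L y hyL] at e2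
          rw [Finset.sum_sub_distrib]
          linarith) B hB hBc
      linarith
    have hconn : ∀ d, ∀ K ⊆ X, ∀ K' ⊆ X, K.card = k + 1 → K'.card = k + 1 →
        (K \ K').card = d → g K = g K' := by
      intro d
      induction d with
      | zero =>
        intro K _ K' _ hKc hKc' hd
        rw [Finset.card_eq_zero, Finset.sdiff_eq_empty_iff_subset] at hd
        rw [Finset.eq_of_subset_of_card_le hd (by omega)]
      | succ d ihd =>
        intro K hK K' hK' hKc hKc' hd
        obtain ⟨x, hx⟩ := Finset.card_pos.1 (show 0 < (K \ K').card by omega)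
        have hsd : (K' \ K).card = d + 1 := by
          have h1 := Finset.card_sdiff_add_card_inter K K'
          have h2 := Finset.card_sdiff_add_card_inter K' K
          rw [Finset.inter_comm] at h2
          omega
        obtain ⟨y, hy⟩ := Finset.card_pos.1 (show 0 < (K' \ K).card by omega)
        rw [Finset.mem_sdiff] at hx hy
        have hxy : x ≠ y := by
          rintro rfl
          exact hx.2 hy.1
        set B := K.erase x with hB
        have hBc : B.card = k := by rw [Finset.card_erase_of_mem hx.1]; omega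
        have hyB : y ∉ B := fun h => hy.2 (Finset.mem_of_mem_erase h)
        have hxB : x ∉ B := Finset.notMem_erase x K
        have hBX : B ⊆ (X.erase x).erase y := by
          intro a ha
          rw [Finset.mem_erase, Finset.mem_erase]
          exact ⟨fun h => hyB (h ▸ ha), fun h => hxB (h ▸ ha),
            hK (Finset.mem_of_mem_erase ha)⟩
        have h1 := hswap x (hK hx.1) y (hK' hy.1) hxy B hBX hBc
        rw [hB, Finset.insert_erase hx.1, ← hB] at h1
        rw [h1]
        refine ihd (insert y B) ?_ K' hK' ?_ hKc' ?_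
        · refine Finset.insert_subset (hK' hy.1) (fun a ha => hK (Finset.mem_of_mem_erase ha))
        · rw [Finset.card_insert_of_notMem hyB, hBc]
        · have : insert y B \ K' = (K \ K').erase x := by
            ext a
            simp only [Finset.mem_sdiff, Finset.mem_insert, Finset.mem_erase, hB]
            constructor
            · rintro ⟨rfl | h, h2⟩
              · exact absurd hy.1 h2
              · exact ⟨h.1, h.2, h2⟩
            · rintro ⟨h1, h2, h3⟩
              exact ⟨Or.inr ⟨h1, h2⟩, h3⟩
          rw [this, Finset.card_erase_of_mem (Finset.mem_sdiff.2 hx)]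
          omega
    intro K hK hKc
    obtain ⟨L, hKL, hLX, hLc⟩ := Finset.exists_subsuperset_card_eq hK
      (show K.card ≤ l + 1 by omega) (show l + 1 ≤ X.card by omega)
    have h1 := hg L hLX hLc
    rw [Finset.sum_congr rfl (g := fun _ => g K) (fun K' hK' => by
      rw [Finset.mem_powersetCard] at hK'
      exact hconn _ K' (hK'.1.trans hLX) K hK hK'.2 hKc rfl), Finset.sum_const,
      Finset.card_powersetCard, hLc, nsmul_eq_mul] at h1
    rcases mul_eq_zero.1 h1 with h2 | h2
    · have h3 : (l + 1).choose (k + 1) ≠ 0 := (Nat.choose_pos (by omega)).ne'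
      exact absurd (by exact_mod_cast h2) h3
    · exact h2

/-- existence of the dual functionals -/
lemma exists_dual {r : ℕ} (k l : ℕ) (hkl : k ≤ l) (hn : k + l ≤ n) (c : Finset (Fin n) → Fin r)
    (hc : ∀ i : Fin r, ∃ K : Finset (Fin n), K.card = k ∧ c K = i)
    (hs : (((Finset.univ : Finset (Finset (Fin n))).filter (fun L => L.card = l)).image
      (fun L => cnt c k L)).card = r) :
    ∀ L0 : Finset (Fin n), L0.card = l → ∃ φ : Fin r → ℚ, ∀ L : Finset (Fin n),
      L.card = l → ∑ K ∈ L.powersetCard k, φ (c K) = if cnt c k L = cnt c k L0 then 1 else 0 := by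
  classical
  set 𝓢 : Finset (Fin r → ℕ) := ((Finset.univ : Finset (Finset (Fin n))).filter
    (fun L => L.card = l)).image (fun L => cnt c k L) with h𝓢
  have hmem : ∀ L : Finset (Fin n), L.card = l → cnt c k L ∈ 𝓢 := fun L hL =>
    Finset.mem_image_of_mem _ (Finset.mem_filter.2 ⟨Finset.mem_univ _, hL⟩)
  have hsum : ∀ (φ : Fin r → ℚ) (L : Finset (Fin n)),
      ∑ K ∈ L.powersetCard k, φ (c K) = ∑ i, φ i * (cnt c k L i : ℚ) := by
    intro φ L
    rw [← Finset.sum_fiberwise (L.powersetCard k) c]
    apply Finset.sum_congr rfl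
    intro i _
    rw [Finset.sum_congr rfl (g := fun _ => φ i) (fun K hK => by
      rw [(Finset.mem_filter.1 hK).2]), Finset.sum_const, cnt, nsmul_eq_mul, mul_comm]
  let T : (Fin r → ℚ) →ₗ[ℚ] (𝓢 → ℚ) :=
    { toFun := fun φ s => ∑ i, φ i * ((s.1 i : ℕ) : ℚ)
      map_add' := by
        intro φ ψ
        funext s
        simp only [Pi.add_apply, add_mul, Finset.sum_add_distrib]
      map_smul' := by
        intro a φ
        funext s
        simp only [Pi.smul_apply, smul_eq_mul, RingHom.id_apply, Finset.mul_sum, mul_assoc] }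
  have hinj : Function.Injective T := by
    rw [← LinearMap.ker_eq_bot, LinearMap.ker_eq_bot']
    intro φ hφ
    have h1 : ∀ L ⊆ (Finset.univ : Finset (Fin n)), L.card = l →
        ∑ K ∈ L.powersetCard k, φ (c K) = 0 := by
      intro L _ hL
      rw [hsum]
      exact congrFun hφ ⟨cnt c k L, hmem L hL⟩
    have h2 := inj_lemma k l hkl Finset.univ (by rw [Finset.card_univ, Fintype.card_fin]; exact hn)
      (fun K => φ (c K)) h1
    funext i
    obtain ⟨K, hK, rfl⟩ := hc i
    exact h2 K (Finset.subset_univ _) hK
  have hsurj : Function.Surjective T := by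
    refine (LinearMap.injective_iff_surjective_of_finrank_eq_finrank ?_).1 hinj
    rw [Module.finrank_fintype_fun_eq_card, Module.finrank_fintype_fun_eq_card, Fintype.card_fin,
      Fintype.card_coe, hs]
  intro L0 hL0
  obtain ⟨φ, hφ⟩ := hsurj (fun s => if s.1 = cnt c k L0 then 1 else 0)
  refine ⟨φ, fun L hL => ?_⟩
  rw [hsum]
  exact congrFun hφ ⟨cnt c k L, hmem L hL⟩

/-- `z` is a support of colour `i`. -/
def Supp {r : ℕ} (c : Finset (Fin n) → Fin r) (k l : ℕ) (z : Finset (Fin n)) (i : Fin r) : Prop :=
  z.card ≤ k ∧ ∃ Y : Finset (Fin n), l ≤ Y.card ∧ Disjoint z Y ∧ (∀ z' ⊆ z, Const c k z' Y) ∧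
    ∃ b ⊆ Y, b.card = k - z.card ∧ c (z ∪ b) = i

theorem main : ∃ g : ℕ → ℕ → ℕ, ∀ k l : ℕ, k < l → ∀ n r : ℕ, g k l ≤ n →
      ∀ c : Finset (Fin n) → Fin r,
        (∀ i : Fin r, ∃ K : Finset (Fin n), K.card = k ∧ c K = i) →
        (((Finset.univ : Finset (Finset (Fin n))).filter (fun L => L.card = l)).image
            (fun L => cnt c k L)).card = r →
        ∃ e : Fin r ≃ Fin r, ∃ σ : Fin r → Finset (Fin n),
          (∀ j, (σ j).card = l) ∧
          Function.Injective (fun j => cnt c k (σ j)) ∧
          (∀ i j : Fin r, j < i → cnt c k (σ j) (e i) = 0) ∧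
          (∀ j : Fin r, cnt c k (σ j) (e j) ≠ 0) := by
  classical
  choose N hN using fun (k l : ℕ) (hkl : k < l) => fam k l hkl (2 ^ k) l
  refine ⟨fun k l => if h : k < l then N k l h + k + l else 0, ?_⟩
  intro k l hkl n r hn c hc hs
  simp only [dif_pos hkl] at hn
  have hdual := exists_dual k l hkl.le (by omega) c hc hs
  -- every colour has a support
  have hsupp : ∀ i : Fin r, ∃ s : ℕ, ∃ z : Finset (Fin n), z.card = s ∧ Supp c k l z i := by
    intro i
    obtain ⟨A, hA, hAi⟩ := hc i
    obtain ⟨Y, hY, hYc, hYconst⟩ := hN k l hkl n r c hdual A hA A.powerset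
      (by rw [Finset.card_powerset, hA])
      (fun z hz => Finset.mem_powerset.1 hz)
      (fun z hz z' hz' => Finset.mem_powerset.2 (hz'.trans (Finset.mem_powerset.1 hz)))
      Aᶜ disjoint_compl_right (by
        rw [Finset.card_compl, Fintype.card_fin, hA]; omega)
    refine ⟨k, A, hA, hA.le, Y, hYc, ?_, ?_, ∅, Finset.empty_subset _, ?_, ?_⟩
    · exact disjoint_compl_right.mono_right hY
    · intro z' hz'
      exact hYconst z' (Finset.mem_powerset.2 hz')
    · rw [Finset.card_empty, hA, Nat.sub_self]
    · rw [Finset.union_empty]; exact hAi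
  let m : Fin r → ℕ := fun i => Nat.find (hsupp i)
  have hmspec : ∀ i, ∃ z : Finset (Fin n), z.card = m i ∧ Supp c k l z i :=
    fun i => Nat.find_spec (hsupp i)
  have hmmin : ∀ i (z : Finset (Fin n)), Supp c k l z i → m i ≤ z.card :=
    fun i z hz => Nat.find_min' (hsupp i) ⟨z, rfl, hz⟩
  -- the l-set attached to a colour
  have hset : ∀ i, ∃ L : Finset (Fin n), L.card = l ∧ cnt c k L i ≠ 0 ∧
      ∀ i', cnt c k L i' ≠ 0 → i' = i ∨ m i' < m i := by
    intro i
    obtain ⟨z, hzm, hzk, Y, hYc, hzY, hconst, b, hb, hbc, hcb⟩ := hmspec i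
    -- choose y with b ⊆ y ⊆ Y of size l - |z|
    obtain ⟨y, hby, hyY, hyc⟩ := Finset.exists_subsuperset_card_eq hb
      (show b.card ≤ l - z.card by omega) (show l - z.card ≤ Y.card by omega)
    refine ⟨z ∪ y, ?_, ?_, ?_⟩
    · rw [Finset.card_union_of_disjoint (hzY.mono_right hyY), hyc]; omega
    · rw [cnt, Finset.card_ne_zero]
      refine ⟨z ∪ b, ?_⟩
      rw [Finset.mem_filter, Finset.mem_powersetCard]
      refine ⟨⟨Finset.union_subset_union subset_rfl hby, ?_⟩, hcb⟩
      rw [Finset.card_union_of_disjoint (hzY.mono_right hb), hbc]; omega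
    · intro i' hi'
      rw [cnt, Finset.card_ne_zero] at hi'
      obtain ⟨K, hK⟩ := hi'
      rw [Finset.mem_filter, Finset.mem_powersetCard] at hK
      obtain ⟨⟨hKs, hKc⟩, hKi⟩ := hK
      have hKe : K = (K ∩ z) ∪ (K ∩ y) := by
        rw [← Finset.inter_union_distrib_left, Finset.inter_eq_left.2 hKs]
      have hd : Disjoint (K ∩ z) (K ∩ y) :=
        (hzY.mono_right hyY).mono Finset.inter_subset_right Finset.inter_subset_right
      have hcd : (K ∩ z).card + (K ∩ y).card = k := by
        rw [← Finset.card_union_of_disjoint hd, ← hKe, hKc]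
      by_cases hz : K ∩ z = z
      · left
        rw [hz] at hKe hcd
        have h1 := hconst z subset_rfl (K ∩ y) (Finset.inter_subset_right.trans hyY) b hb
          (by omega) hbc
        rw [← hKe, hKi, hcb] at h1
        exact h1
      · right
        have hlt : (K ∩ z).card < z.card :=
          Finset.card_lt_card (Finset.ssubset_iff_subset_ne.2 ⟨Finset.inter_subset_right, hz⟩)
        rw [← hzm]
        refine lt_of_le_of_lt (hmmin i' (K ∩ z) ?_) hlt
        refine ⟨by omega, Y, hYc, hzY.mono_left Finset.inter_subset_right, ?_, K ∩ y,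
          Finset.inter_subset_right.trans hyY, by omega, ?_⟩
        · intro z' hz'
          exact hconst z' (hz'.trans Finset.inter_subset_right)
        · rw [← hKe]; exact hKi
  choose L hLc hLi hLo using hset
  let e : Fin r ≃ Fin r := Tuple.sort m
  have hmono : Monotone (m ∘ e) := Tuple.monotone_sort m
  have htri : ∀ i j : Fin r, j < i → cnt c k (L (e j)) (e i) = 0 := by
    intro i j hji
    by_contra hne
    rcases hLo (e j) (e i) hne with h | h
    · exact absurd (e.injective h) hji.ne'
    · exact absurd h (not_lt_of_ge (hmono hji.le))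
  refine ⟨e, fun j => L (e j), fun j => hLc (e j), ?_, htri, fun j => hLi (e j)⟩
  intro i j hij
  simp only at hij
  rcases lt_trichotomy i j with h | h | h
  · have h1 := htri j i h
    rw [hij] at h1
    exact absurd h1 (hLi (e j))
  · exact h
  · have h1 := htri i j h
    rw [← hij] at h1
    exact absurd h1 (hLi (e i))

end Pool.Agent.Helper3.Col
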