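import Pool.Agent.Helper3.NCHom

set_option autoImplicit false

namespace Pool.Agent.Helper3.ProP

open Finset Filter

/-- the matrix with ones on the diagonal of index `a` -/
def shiftMat (a : ℕ) : IA :=
  ⟨fun r s => if s = r + a then 1 else 0, fun _ _ h => if_neg (by omega)⟩

lemma shiftMat_apply (a r s : ℕ) : shiftMat a r s = if s = r + a then 1 else 0 := rfl

lemma shiftMat_mem (a : ℕ) : shiftMat a ∈ fil a := by
  intro r s h
  rw [shiftMat_apply, if_neg (by omega)]

lemma shift_mul (a : ℕ) (Y : IA) (r s : ℕ) (_ : r ≤ s) : (shiftMat a * Y) r s = Y (r + a) s := by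
  rw [IncidenceAlgebra.mul_apply]
  by_cases hs : r + a ≤ s
  · rw [Finset.sum_eq_single (r + a)]
    · rw [shiftMat_apply, if_pos rfl, one_mul]
    · intro t _ ht
      rw [shiftMat_apply, if_neg ht, zero_mul]
    · intro ht
      exact absurd (Finset.mem_Icc.mpr ⟨by omega, hs⟩) ht
  · rw [IncidenceAlgebra.apply_eq_zero_of_not_le hs]
    refine Finset.sum_eq_zero (fun t ht => ?_)
    rw [Finset.mem_Icc] at ht
    rw [shiftMat_apply, if_neg (by omega), zero_mul]

lemma mul_shift (a : ℕ) (Y : IA) (r s : ℕ) (_ : r ≤ s) :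
    (Y * shiftMat a) r s = if a ≤ s then Y r (s - a) else 0 := by
  rw [IncidenceAlgebra.mul_apply]
  split_ifs with ha
  · by_cases hs : r ≤ s - a
    · rw [Finset.sum_eq_single (s - a)]
      · rw [shiftMat_apply, if_pos (by omega), mul_one]
      · intro t _ ht
        rw [shiftMat_apply, if_neg (by omega), mul_zero]
      · intro ht
        exact absurd (Finset.mem_Icc.mpr ⟨hs, by omega⟩) ht
    · rw [IncidenceAlgebra.apply_eq_zero_of_not_le hs]
      refine Finset.sum_eq_zero (fun t ht => ?_)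
      rw [Finset.mem_Icc] at ht
      rw [shiftMat_apply, if_neg (by omega), mul_zero]
  · refine Finset.sum_eq_zero (fun t ht => ?_)
    rw [shiftMat_apply, if_neg (by omega), mul_zero]

/-- rows of the solution, computed recursively -/
noncomputable def row (a : ℕ) (W : IA) (r : ℕ) : ℕ → ZMod 2 :=
  if _h : 0 < a ∧ a ≤ r then
    fun s => (if a ≤ s then row a W (r - a) (s - a) else 0) + W (r - a) s +
      ∑ t ∈ Icc (r - a) s, row a W (r - a) t * W t s
  else fun _ => 0
termination_by r
decreasing_by all_goals omega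

lemma row_lt (a : ℕ) (W : IA) (r s : ℕ) (h : r < a) : row a W r s = 0 := by
  rw [row, dif_neg (by omega)]

lemma row_add (a : ℕ) (W : IA) (r s : ℕ) (ha : 0 < a) : row a W (r + a) s =
    (if a ≤ s then row a W r (s - a) else 0) + W r s + ∑ t ∈ Icc r s, row a W r t * W t s := by
  rw [row, dif_pos ⟨ha, by omega⟩]
  simp only [Nat.add_sub_cancel]

lemma row_support (a b : ℕ) (ha : 0 < a) (W : IA) (hW : W ∈ fil (a + b)) (r : ℕ) :
    ∀ s, s < r + b → row a W r s = 0 := by
  induction r using Nat.strong_induction_on with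
  | _ r ih =>
    intro s hs
    by_cases hr : r < a
    · exact row_lt a W r s hr
    · obtain ⟨r', rfl⟩ : ∃ r', r = r' + a := ⟨r - a, by omega⟩
      rw [row_add a W r' s ha]
      have h1 : (if a ≤ s then row a W r' (s - a) else 0) = 0 := by
        split_ifs with h
        · exact ih r' (by omega) (s - a) (by omega)
        · rfl
      have h2 : W r' s = 0 := hW r' s (by omega)
      rw [h1, h2, zero_add, zero_add]
      refine Finset.sum_eq_zero (fun t ht => ?_)
      rw [Finset.mem_Icc] at ht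
      rw [hW t s (by omega), mul_zero]

/-- the solution matrix -/
noncomputable def sol (a : ℕ) (W : IA) : IA :=
  ⟨fun r s => if r ≤ s then row a W r s else 0, fun _ _ h => if_neg h⟩

lemma sol_apply (a b : ℕ) (ha : 0 < a) (W : IA) (hW : W ∈ fil (a + b)) (r s : ℕ) :
    sol a W r s = row a W r s := by
  show (if r ≤ s then row a W r s else 0) = row a W r s
  split_ifs with h
  · rfl
  · exact (row_support a b ha W hW r s (by omega)).symm

lemma sol_mem (a b : ℕ) (ha : 0 < a) (W : IA) (hW : W ∈ fil (a + b)) : sol a W ∈ fil b := by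
  intro r s h
  rw [sol_apply a b ha W hW]
  exact row_support a b ha W hW r s h

lemma sol_eq (a b : ℕ) (ha : 0 < a) (W : IA) (hW : W ∈ fil (a + b)) :
    shiftMat a * sol a W = sol a W * shiftMat a + W + sol a W * W := by
  ext r s hrs
  rw [shift_mul a _ r s hrs, IncidenceAlgebra.add_apply, IncidenceAlgebra.add_apply,
    mul_shift a _ r s hrs, IncidenceAlgebra.mul_apply]
  simp only [sol_apply a b ha W hW]
  exact row_add a W r s ha

lemma comm_eq (a b : ℕ) (ha : 0 < a) (Z : IA) (hZ : Z ∈ fil (a + b)) :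
    ∃ Y ∈ fil b, (1 + Y) * (1 + shiftMat a) * (1 + Z) = (1 + shiftMat a) * (1 + Y) := by
  have hW : (1 + shiftMat a) * Z ∈ fil (a + b) := by
    rw [add_mul, one_mul]
    exact Submodule.add_mem _ hZ (fil_anti (by omega) (fil_mul (shiftMat_mem a) hZ))
  refine ⟨sol a ((1 + shiftMat a) * Z), sol_mem a b ha _ hW, ?_⟩
  have h := sol_eq a b ha _ hW
  generalize hY : sol a ((1 + shiftMat a) * Z) = Y at h
  have h2 : (1 + shiftMat a) * (1 + Y) = 1 + shiftMat a + Y + shiftMat a * Y := by noncomm_ring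
  rw [h2, h]
  noncomm_ring

lemma comm_seq (Z : AA) (hZ : Z ∈ MM 1) : ∃ X ∈ MM 1, ∃ Y ∈ MM 1,
    ∀ᶠ i in atTop, (1 + Y i) * (1 + X i) * (1 + Z i) = (1 + X i) * (1 + Y i) := by
  classical
  let D : ℕ → ℕ := fun i => Nat.findGreatest (fun D => Z i ∈ fil D) i
  have hD : ∀ i, Z i ∈ fil (D i) := fun i =>
    Nat.findGreatest_spec (P := fun D => Z i ∈ fil D) (m := 0) (Nat.zero_le _) (mem_fil_zero _)
  have hDlim : ∀ E, ∀ᶠ i in atTop, E ≤ D i := by
    intro E
    filter_upwards [hZ.2 le_rfl E, eventually_ge_atTop E] with i h1 h2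
    exact Nat.le_findGreatest (P := fun D => Z i ∈ fil D) h2 h1
  have hex : ∀ i, 2 ≤ D i → ∃ Y ∈ fil (D i - D i / 2),
      (1 + Y) * (1 + shiftMat (D i / 2)) * (1 + Z i) = (1 + shiftMat (D i / 2)) * (1 + Y) := by
    intro i hi
    refine comm_eq (D i / 2) (D i - D i / 2) (by omega) (Z i) ?_
    have : D i / 2 + (D i - D i / 2) = D i := by omega
    rw [this]; exact hD i
  let X : AA := fun i => if 2 ≤ D i then shiftMat (D i / 2) else 0
  let Y : AA := fun i => if h : 2 ≤ D i then (hex i h).choose else 0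
  have hX : ∀ i, 2 ≤ D i → X i = shiftMat (D i / 2) := fun i h => if_pos h
  have hX' : ∀ i, ¬ 2 ≤ D i → X i = 0 := fun i h => if_neg h
  have hY : ∀ i (h : 2 ≤ D i), Y i = (hex i h).choose := fun i h => dif_pos h
  have hY' : ∀ i, ¬ 2 ≤ D i → Y i = 0 := fun i h => dif_neg h
  refine ⟨X, ⟨fun i => ?_, fun _ E => ?_⟩, Y, ⟨fun i => ?_, fun _ E => ?_⟩, ?_⟩
  · by_cases h : 2 ≤ D i
    · rw [hX i h]; exact fil_anti (by omega) (shiftMat_mem _)
    · rw [hX' i h]; exact Submodule.zero_mem _
  · filter_upwards [hDlim (2 * E + 2)] with i hi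
    rw [hX i (by omega)]
    exact fil_anti (by omega) (shiftMat_mem _)
  · by_cases h : 2 ≤ D i
    · rw [hY i h]; exact fil_anti (by omega) (hex i h).choose_spec.1
    · rw [hY' i h]; exact Submodule.zero_mem _
  · filter_upwards [hDlim (2 * E + 2)] with i hi
    have h2 : 2 ≤ D i := by omega
    rw [hY i h2]
    exact fil_anti (by omega) (hex i h2).choose_spec.1
  · filter_upwards [hDlim 2] with i hi
    rw [hX i hi, hY i hi]
    exact (hex i hi).choose_spec.2

end Pool.Agent.Helper3.ProP
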