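import Pool.Agent.Helper3.NCSeries

set_option autoImplicit false

namespace Pool.Agent.Helper3.ProP

open Finset

variable {X : Type} {A : Type} [Ring A] [Algebra (ZMod 2) A]

/-- A graded multiplicative family of linear maps, defined and controlled in degrees below `n`. -/
structure Good (M : ℕ → Submodule (ZMod 2) A) (q : NC X →ₗ[ZMod 2] A) (n : ℕ)
    (Φ : ℕ → NC X →ₗ[ZMod 2] A) : Prop where
  deg : ∀ d < n, ∀ f : NC X, pr d f = 0 → Φ d f = 0
  zero : 0 < n → ∀ f : NC X, Φ 0 f = f [] • (1 : A)
  one : 1 < n → ∀ f : NC X, Homog 1 f → Φ 1 f = q f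
  mul : ∀ a b : ℕ, a + b < n → ∀ f g : NC X, Homog a f → Homog b g →
    Φ (a + b) (f * g) = Φ a f * Φ b g
  mem : ∀ d < n, ∀ f : NC X, Φ d f ∈ M d

lemma rel {M : ℕ → Submodule (ZMod 2) A} {q : NC X →ₗ[ZMod 2] A} {n : ℕ}
    {Φ : ℕ → NC X →ₗ[ZMod 2] A} (hΦ : Good M q n Φ) {ι : Type} (m : ℕ) :
    ∀ (s : Finset ι) (a b : ι → ℕ) (f g : ι → NC X), s.card = m →
    (∀ i ∈ s, a i + b i = n) → (∀ i ∈ s, 1 ≤ a i) → (∀ i ∈ s, 1 ≤ b i) →
    (∀ i ∈ s, Homog (a i) (f i)) → (∀ i ∈ s, Homog (b i) (g i)) →
    ∑ i ∈ s, f i * g i = 0 → ∑ i ∈ s, Φ (a i) (f i) * Φ (b i) (g i) = 0 := by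
  classical
  induction m with
  | zero =>
    intro s a b f g hs _ _ _ _ _ _
    rw [Finset.card_eq_zero] at hs
    subst hs; simp
  | succ m ih =>
    intro s a b f g hs hab ha hb hf hg hsum
    by_cases hz : ∃ k ∈ s, g k = 0
    · obtain ⟨k, hk, hgk⟩ := hz
      rw [← Finset.add_sum_erase s _ hk, hgk, map_zero, mul_zero, zero_add]
      refine ih (s.erase k) a b f g (by rw [Finset.card_erase_of_mem hk, hs]; rfl)
        (fun i hi => hab i (Finset.mem_of_mem_erase hi)) (fun i hi => ha i (Finset.mem_of_mem_erase hi))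
        (fun i hi => hb i (Finset.mem_of_mem_erase hi)) (fun i hi => hf i (Finset.mem_of_mem_erase hi))
        (fun i hi => hg i (Finset.mem_of_mem_erase hi)) ?_
      rw [← Finset.add_sum_erase s _ hk, hgk, mul_zero, zero_add] at hsum
      exact hsum
    · push Not at hz
      have hne : s.Nonempty := by rw [← Finset.card_pos, hs]; omega
      obtain ⟨k, hk, hmin⟩ := Finset.exists_min_image s b hne
      have hgk : g k ≠ 0 := hz k hk
      obtain ⟨u, hu⟩ : ∃ u, g k u ≠ 0 := by
        by_contra hcon
        push Not at hcon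
        exact hgk (NC.ext (fun w => by rw [hcon w]; rfl))
      have hul : u.length = b k := by
        by_contra hne'
        exact hu (hg k hk u hne')
      have hu1 : g k u = 1 := by
        have := hu
        revert this
        generalize g k u = z
        revert z; decide
      -- the transduced elements
      let c : ι → NC X := fun i => - tr u (g i)
      have hble : ∀ i ∈ s, u.length ≤ b i := fun i hi => by rw [hul]; exact hmin i hi
      have hc : ∀ i ∈ s, Homog (b i - b k) (c i) := by
        intro i hi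
        have := (tr_homog (hg i hi) u (hble i hi)).neg
        rwa [hul] at this
      have htrk : tr u (g k) = 1 := by
        ext w
        cases w with
        | nil => rw [tr_apply, NC.one_nil]; exact hu1
        | cons x w =>
          rw [tr_apply, NC.one_cons]
          apply hg k hk
          rw [List.length_append, hul]; simp; 
      have htrsum : ∑ i ∈ s, f i * tr u (g i) = 0 := by
        ext w
        rw [NC.sum_apply, NC.zero_apply]
        have h1 : (∑ i ∈ s, f i * g i) (w ++ u) = 0 := by rw [hsum]; rfl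
        rw [NC.sum_apply] at h1
        rw [← h1]
        exact Finset.sum_congr rfl (fun i hi => (tr_mul (hg i hi) u (hble i hi) w).symm)
      have hfk : f k = ∑ i ∈ s.erase k, f i * c i := by
        rw [← Finset.add_sum_erase s _ hk, htrk, mul_one] at htrsum
        have : f k = - ∑ i ∈ s.erase k, f i * tr u (g i) := eq_neg_of_add_eq_zero_left htrsum
        rw [this, ← Finset.sum_neg_distrib]
        exact Finset.sum_congr rfl (fun i _ => by simp only [c, mul_neg])
      have hbk : 1 ≤ b k := hb k hk
      have hΦfk : Φ (a k) (f k) = ∑ i ∈ s.erase k, Φ (a i) (f i) * Φ (b i - b k) (c i) := by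
        rw [hfk, map_sum]
        refine Finset.sum_congr rfl (fun i hi => ?_)
        have his := Finset.mem_of_mem_erase hi
        have h1 := hab i his
        have h2 := hab k hk
        have h3 := hmin i his
        have h4 : a k = a i + (b i - b k) := by omega
        rw [h4]
        exact hΦ.mul _ _ (by omega) _ _ (hf i his) (hc i his)
      have key := ih (s.erase k) a b f (fun i => g i + c i * g k)
        (by rw [Finset.card_erase_of_mem hk, hs]; rfl)
        (fun i hi => hab i (Finset.mem_of_mem_erase hi)) (fun i hi => ha i (Finset.mem_of_mem_erase hi))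
        (fun i hi => hb i (Finset.mem_of_mem_erase hi)) (fun i hi => hf i (Finset.mem_of_mem_erase hi))
        (fun i hi => by
          have his := Finset.mem_of_mem_erase hi
          refine (hg i his).add ?_
          have h := (hc i his).mul (hg k hk)
          rwa [Nat.sub_add_cancel (hmin i his)] at h)
        (by
          have : ∑ i ∈ s.erase k, f i * (g i + c i * g k)
              = ∑ i ∈ s.erase k, f i * g i + (∑ i ∈ s.erase k, f i * c i) * g k := by
            rw [Finset.sum_mul, ← Finset.sum_add_distrib]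
            exact Finset.sum_congr rfl (fun i _ => by rw [mul_add, mul_assoc])
          rw [this, ← hfk, add_comm, Finset.add_sum_erase s (fun i => f i * g i) hk]
          exact hsum)
      rw [← Finset.add_sum_erase s _ hk, hΦfk, Finset.sum_mul, ← Finset.sum_add_distrib, ← key]
      refine Finset.sum_congr rfl (fun i hi => ?_)
      have his := Finset.mem_of_mem_erase hi
      have h1 := hab i his
      have h3 := hmin i his
      have h5 := ha i his
      rw [map_add]
      have h6 : Φ (b i) (c i * g k) = Φ (b i - b k) (c i) * Φ (b k) (g k) := by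
        have h := hΦ.mul (b i - b k) (b k) (by omega) (c i) (g k) (hc i his) (hg k hk)
        rwa [Nat.sub_add_cancel h3] at h
      rw [h6, mul_add, mul_assoc, add_comm]

lemma good_update {M : ℕ → Submodule (ZMod 2) A} {q : NC X →ₗ[ZMod 2] A} {n : ℕ}
    {Φ : ℕ → NC X →ₗ[ZMod 2] A} (hΦ : Good M q n Φ) (ψ : NC X →ₗ[ZMod 2] A)
    (h1 : ∀ f : NC X, pr n f = 0 → ψ f = 0)
    (h2 : n = 0 → ∀ f : NC X, ψ f = f [] • (1 : A))
    (h3 : n = 1 → ∀ f : NC X, Homog 1 f → ψ f = q f)
    (h4 : ∀ a b : ℕ, 1 ≤ a → 1 ≤ b → a + b = n → ∀ f g : NC X, Homog a f → Homog b g →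
      ψ (f * g) = Φ a f * Φ b g)
    (h5 : ∀ f : NC X, ψ f ∈ M n) :
    Good M q (n + 1) (Function.update Φ n ψ) := by
  have hlt : ∀ d, d < n → Function.update Φ n ψ d = Φ d :=
    fun d hd => Function.update_of_ne (by omega) _ _
  have heq : Function.update Φ n ψ n = ψ := Function.update_self _ _ _
  have hzero : ∀ f : NC X, Function.update Φ n ψ 0 f = f [] • (1 : A) := by
    intro f
    rcases Nat.eq_zero_or_pos n with h | h
    · have h' : Function.update Φ n ψ 0 = ψ := by subst h; exact heq
      rw [h']; exact h2 h f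
    · rw [hlt 0 h]; exact hΦ.zero h f
  refine ⟨?_, fun _ => hzero, ?_, ?_, ?_⟩
  · intro d hd f hf
    rcases Nat.lt_succ_iff_lt_or_eq.mp hd with h | h
    · rw [hlt d h]; exact hΦ.deg d h f hf
    · subst h; rw [heq]; exact h1 f hf
  · intro hn f hf
    rcases Nat.lt_succ_iff_lt_or_eq.mp hn with h | h
    · rw [hlt 1 h]; exact hΦ.one h f hf
    · have h' : Function.update Φ n ψ 1 = ψ := by subst h; exact heq
      rw [h']; exact h3 h.symm f hf
  · intro a b hab f g hf hg
    rcases Nat.eq_zero_or_pos a with ha | ha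
    · subst ha
      rw [hzero f, zero_add]
      have : f * g = f [] • g := by
        conv_lhs => rw [homog_zero_eq hf]
        rw [smul_mul_assoc, one_mul]
      rw [this, map_smul, smul_mul_assoc, one_mul]
    · rcases Nat.eq_zero_or_pos b with hb | hb
      · subst hb
        rw [hzero g, add_zero]
        have : f * g = g [] • f := by
          conv_lhs => rw [homog_zero_eq hg]
          rw [mul_smul_comm, mul_one]
        rw [this, map_smul, mul_smul_comm, mul_one]
      · rcases Nat.lt_succ_iff_lt_or_eq.mp hab with h | h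
        · rw [hlt _ h, hlt a (by omega), hlt b (by omega)]
          exact hΦ.mul a b h f g hf hg
        · rw [h, heq, hlt a (by omega), hlt b (by omega)]
          exact h4 a b ha hb h f g hf hg
  · intro d hd f
    rcases Nat.lt_succ_iff_lt_or_eq.mp hd with h | h
    · rw [hlt d h]; exact hΦ.mem d h f
    · subst h; rw [heq]; exact h5 f

/-- index type of the decomposable products of degree `n` -/
def Idx (X : Type) (n : ℕ) : Type :=
  {t : (ℕ × ℕ) × (NC X × NC X) // 1 ≤ t.1.1 ∧ 1 ≤ t.1.2 ∧ t.1.1 + t.1.2 = n ∧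
    Homog t.1.1 t.2.1 ∧ Homog t.1.2 t.2.2}

lemma step {M : ℕ → Submodule (ZMod 2) A} {q : NC X →ₗ[ZMod 2] A}
    (hM0 : ∀ x : A, x ∈ M 0)
    (hMmul : ∀ a b : ℕ, 1 ≤ a → 1 ≤ b → ∀ x ∈ M a, ∀ y ∈ M b, x * y ∈ M (a + b))
    (hq : ∀ f, q f ∈ M 1) {n : ℕ}
    {Φ : ℕ → NC X →ₗ[ZMod 2] A} (hΦ : Good M q n Φ) :
    ∃ ψ, Good M q (n + 1) (Function.update Φ n ψ) := by
  classical
  rcases Nat.lt_or_ge n 2 with hn2 | hn2
  · rcases Nat.eq_zero_or_pos n with hn | hn
    · -- degree zero
      subst hn
      let ψ : NC X →ₗ[ZMod 2] A :=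
        { toFun := fun f => f [] • (1 : A)
          map_add' := fun f g => by rw [NC.add_apply, add_smul]
          map_smul' := fun c f => by
            rw [NC.smul_apply, mul_smul]; rfl }
      refine ⟨ψ, good_update hΦ ψ ?_ (fun _ _ => rfl) (fun h => by omega) (fun a b ha hb h => by omega)
        (fun f => hM0 _)⟩
      intro f hf
      have : f [] = 0 := by
        have h : pr 0 f [] = 0 := by rw [hf]; rfl
        rw [pr_apply] at h
        exact (if_pos List.length_nil).symm.trans h
      show f [] • (1 : A) = 0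
      rw [this, zero_smul]
    · have hn1 : n = 1 := by omega
      subst hn1
      refine ⟨q ∘ₗ pr 1, good_update hΦ _ ?_ (fun h => by omega) ?_ (fun a b ha hb h => by omega)
        (fun f => hq _)⟩
      · intro f hf
        rw [LinearMap.comp_apply, hf, map_zero]
      · intro _ f hf
        rw [LinearMap.comp_apply, pr_of_homog hf]
  · -- degree at least two
    let L1 : (Idx X n →₀ ZMod 2) →ₗ[ZMod 2] NC X :=
      Finsupp.linearCombination (ZMod 2) (fun t : Idx X n => t.1.2.1 * t.1.2.2)
    let L2 : (Idx X n →₀ ZMod 2) →ₗ[ZMod 2] A :=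
      Finsupp.linearCombination (ZMod 2)
        (fun t : Idx X n => Φ t.1.1.1 t.1.2.1 * Φ t.1.1.2 t.1.2.2)
    have hker : ∀ z, L1 z = 0 → L2 z = 0 := by
      intro z hz
      have h1 : L1 z = ∑ t ∈ z.support, (z t • t.1.2.1) * t.1.2.2 := by
        simp only [L1, Finsupp.linearCombination_apply, Finsupp.sum, smul_mul_assoc]
      have h2 : L2 z = ∑ t ∈ z.support, Φ t.1.1.1 (z t • t.1.2.1) * Φ t.1.1.2 t.1.2.2 := by
        simp only [L2, Finsupp.linearCombination_apply, Finsupp.sum, map_smul, smul_mul_assoc]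
      rw [h2]
      refine rel hΦ z.support.card z.support (fun t : Idx X n => t.1.1.1) (fun t => t.1.1.2)
        (fun t => z t • t.1.2.1) (fun t => t.1.2.2) rfl
        (fun t _ => t.2.2.2.1) (fun t _ => t.2.1) (fun t _ => t.2.2.1)
        (fun t _ => t.2.2.2.2.1.smul _) (fun t _ => t.2.2.2.2.2) ?_
      rw [← h1, hz]
    obtain ⟨s0, hs0⟩ := LinearMap.exists_rightInverse_of_surjective L1.rangeRestrict
      (LinearMap.range_rangeRestrict L1)
    obtain ⟨s, hs⟩ := LinearMap.exists_extend s0
    have hsL : ∀ z, L1 (s (L1 z)) = L1 z := by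
      intro z
      have h1 : s (L1 z) = s0 (L1.rangeRestrict z) := by
        have := LinearMap.congr_fun hs (L1.rangeRestrict z)
        simpa using this
      rw [h1]
      have h2 := LinearMap.congr_fun hs0 (L1.rangeRestrict z)
      have h3 := congrArg Subtype.val h2
      simpa using h3
    refine ⟨L2 ∘ₗ s ∘ₗ pr n, good_update hΦ _ ?_ (fun h => by omega) (fun h => by omega) ?_ ?_⟩
    · intro f hf
      simp only [LinearMap.comp_apply, hf, map_zero]
    · intro a b ha hb hab f g hf hg
      have hfg : Homog n (f * g) := by rw [← hab]; exact hf.mul hg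
      let t : Idx X n := ⟨((a, b), (f, g)), ha, hb, hab, hf, hg⟩
      have h1 : L1 (Finsupp.single t 1) = f * g := by
        simp only [L1]; rw [Finsupp.linearCombination_single, one_smul]
      have h2 : L2 (Finsupp.single t 1) = Φ a f * Φ b g := by
        simp only [L2]; rw [Finsupp.linearCombination_single, one_smul]
      simp only [LinearMap.comp_apply]
      rw [pr_of_homog hfg, ← h1, ← h2, ← sub_eq_zero, ← map_sub]
      apply hker
      rw [map_sub, hsL, sub_self]
    · intro f
      simp only [LinearMap.comp_apply]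
      generalize s (pr n f) = z
      simp only [L2, Finsupp.linearCombination_apply, Finsupp.sum]
      refine Submodule.sum_mem _ (fun t _ => Submodule.smul_mem _ _ ?_)
      have h := hMmul _ _ t.2.1 t.2.2.1 _ (hΦ.mem t.1.1.1 (by have := t.2.2.2.1; have := t.2.2.1; omega) t.1.2.1)
        _ (hΦ.mem t.1.1.2 (by have := t.2.2.2.1; have := t.2.1; omega) t.1.2.2)
      rwa [t.2.2.2.1] at h

/-- Existence of the full graded multiplicative family. -/
theorem exists_family {M : ℕ → Submodule (ZMod 2) A} {q : NC X →ₗ[ZMod 2] A}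
    (hM0 : ∀ x : A, x ∈ M 0)
    (hMmul : ∀ a b : ℕ, 1 ≤ a → 1 ≤ b → ∀ x ∈ M a, ∀ y ∈ M b, x * y ∈ M (a + b))
    (hq : ∀ f, q f ∈ M 1) :
    ∃ Φ : ℕ → NC X →ₗ[ZMod 2] A, ∀ n, Good M q n Φ := by
  classical
  have h0 : Good M q 0 (fun _ => (0 : NC X →ₗ[ZMod 2] A)) :=
    ⟨fun d hd => by omega, fun h => by omega, fun h => by omega, fun a b h => by omega,
      fun d hd => by omega⟩
  let T : ℕ → Type := fun n => {Φ : ℕ → NC X →ₗ[ZMod 2] A // Good M q n Φ}
  let F : ∀ n, T n := fun n => Nat.rec ⟨_, h0⟩
    (fun n Φ => ⟨Function.update Φ.1 n (step hM0 hMmul hq Φ.2).choose,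
      (step hM0 hMmul hq Φ.2).choose_spec⟩) n
  have hF : ∀ n d, d < n → (F (n + 1)).1 d = (F n).1 d := by
    intro n d hd
    show Function.update (F n).1 n _ d = (F n).1 d
    exact Function.update_of_ne (by omega) _ _
  have hF' : ∀ d k, (F (d + 1 + k)).1 d = (F (d + 1)).1 d := by
    intro d k
    induction k with
    | zero => rfl
    | succ k ih => rw [← add_assoc, hF _ _ (by omega), ih]
  have hF'' : ∀ d n, d < n → (F n).1 d = (F (d + 1)).1 d := by
    intro d n h
    obtain ⟨k, rfl⟩ := Nat.exists_eq_add_of_le (Nat.succ_le_of_lt h)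
    exact hF' d k
  refine ⟨fun d => (F (d + 1)).1 d, fun n => ?_⟩
  refine ⟨?_, ?_, ?_, ?_, ?_⟩
  · intro d _ f hf
    exact (F (d + 1)).2.deg d (by omega) f hf
  · intro _ f
    exact (F 1).2.zero (by omega) f
  · intro _ f hf
    exact (F 2).2.one (by omega) f hf
  · intro a b _ f g hf hg
    have h := (F (a + b + 1)).2.mul a b (by omega) f g hf hg
    rw [hF'' a (a + b + 1) (by omega), hF'' b (a + b + 1) (by omega)] at h
    exact h
  · intro d _ f
    exact (F (d + 1)).2.mem d (by omega) f

end Pool.Agent.Helper3.ProP
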