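import Pool.Agent.Helper3.NCComm

set_option autoImplicit false

namespace Pool.Agent.Helper3.ProP

open Finset Filter Topology commutatorElement

variable {X : Type}

instance : TopologicalSpace (NC X) := inferInstanceAs (TopologicalSpace (List X → ZMod 2))
instance : CompactSpace (NC X) := inferInstanceAs (CompactSpace (List X → ZMod 2))
instance : T2Space (NC X) := inferInstanceAs (T2Space (List X → ZMod 2))
instance : TotallyDisconnectedSpace (NC X) :=
  inferInstanceAs (TotallyDisconnectedSpace (List X → ZMod 2))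

lemma continuous_eval (w : List X) : Continuous (fun f : NC X => f w) :=
  continuous_apply (A := fun _ : List X => ZMod 2) w

lemma continuous_to_NC {Y : Type} [TopologicalSpace Y] {F : Y → NC X}
    (h : ∀ w, Continuous (fun y => F y w)) : Continuous F :=
  continuous_pi (A := fun _ : List X => ZMod 2) h

lemma continuous_conv (w : List X) : Continuous (fun p : NC X × NC X => conv w p.1 p.2) := by
  simp only [conv_eq_sum]
  refine continuous_finsetSum _ (fun i _ => ?_)
  exact ((continuous_eval _).comp continuous_fst).mul ((continuous_eval _).comp continuous_snd)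

instance : ContinuousMul (NC X) := ⟨continuous_to_NC (fun w => continuous_conv w)⟩

instance : ContinuousAdd (NC X) := ⟨continuous_to_NC (fun w =>
  ((continuous_eval w).comp continuous_fst).add ((continuous_eval w).comp continuous_snd))⟩

lemma pow_apply_eq_zero {h : NC X} (hh : h [] = 0) (n : ℕ) :
    ∀ w : List X, w.length < n → (h ^ n) w = 0 := by
  induction n with
  | zero => intro w hw; omega
  | succ n ih =>
    intro w hw
    rw [pow_succ', NC.mul_apply]
    refine conv_eq_zero w _ _ (fun u v huv => ?_)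
    cases u with
    | nil => rw [hh, zero_mul]
    | cons x u =>
      rw [ih v, mul_zero]
      rw [← huv, List.length_append, List.length_cons] at hw
      omega

/-- The group of noncommutative series with constant term one. -/
def G (X : Type) : Type := {f : NC X // f [] = 1}

instance : TopologicalSpace (G X) := inferInstanceAs (TopologicalSpace {f : NC X // f [] = 1})
instance : T2Space (G X) := inferInstanceAs (T2Space {f : NC X // f [] = 1})
instance : TotallyDisconnectedSpace (G X) :=
  inferInstanceAs (TotallyDisconnectedSpace {f : NC X // f [] = 1})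

instance : CompactSpace (G X) := by
  have h : IsClosed {f : NC X | f [] = 1} :=
    isClosed_eq (continuous_eval []) continuous_const
  exact isCompact_iff_compactSpace.mp h.isCompact

/-- inverse by the geometric series -/
def invFun (f : NC X) : NC X := fun w => (∑ n ∈ range (w.length + 1), (1 - f) ^ n) w

lemma geom_apply {f : NC X} (hf : f [] = 1) (w : List X) (N : ℕ) (hN : w.length < N) :
    (∑ n ∈ range N, (1 - f) ^ n) w = invFun f w := by
  have h0 : (1 - f) [] = 0 := by rw [NC.sub_apply, hf, NC.one_nil, sub_self]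
  unfold invFun
  rw [NC.sum_apply, NC.sum_apply]
  symm
  refine Finset.sum_subset (fun d hd => ?_) (fun d _ hd => ?_)
  · rw [Finset.mem_range] at *; omega
  · rw [Finset.mem_range] at hd
    exact pow_apply_eq_zero h0 d w (by omega)

lemma inv_mul_self {f : NC X} (hf : f [] = 1) : invFun f * f = 1 := by
  have h0 : (1 - f) [] = 0 := by rw [NC.sub_apply, hf, NC.one_nil, sub_self]
  ext w
  have h1 : (invFun f * f) w = ((∑ n ∈ range (w.length + 1), (1 - f) ^ n) * f) w := by
    rw [NC.mul_apply, NC.mul_apply, conv_eq_sum, conv_eq_sum]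
    refine Finset.sum_congr rfl (fun i hi => ?_)
    rw [geom_apply hf (w.take i) (w.length + 1) (by simp)]
  have h2 : (∑ n ∈ range (w.length + 1), (1 - f) ^ n) * f = 1 - (1 - f) ^ (w.length + 1) := by
    have h3 := geom_sum_mul (1 - f) (w.length + 1)
    have h4 : (1 - f) - 1 = - f := by abel
    rw [h4, mul_neg] at h3
    have h5 : (∑ n ∈ range (w.length + 1), (1 - f) ^ n) * f = - ((1 - f) ^ (w.length + 1) - 1) := by
      rw [← h3, neg_neg]
    rw [h5, neg_sub]
  rw [h1, h2, NC.sub_apply, pow_apply_eq_zero h0 _ w (by omega), sub_zero]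

lemma inv_nil {f : NC X} (hf : f [] = 1) : invFun f [] = 1 := by
  unfold invFun
  simp [NC.one_nil]

instance : Mul (G X) := ⟨fun f g => ⟨f.1 * g.1, by rw [NC.mul_nil, f.2, g.2, mul_one]⟩⟩
instance : One (G X) := ⟨⟨1, NC.one_nil⟩⟩
instance : Inv (G X) := ⟨fun f => ⟨invFun f.1, inv_nil f.2⟩⟩

lemma G.mul_val (f g : G X) : (f * g).1 = f.1 * g.1 := rfl
lemma G.one_val : (1 : G X).1 = 1 := rfl

instance : Group (G X) := Group.ofLeftAxioms
  (fun a b c => Subtype.ext (mul_assoc a.1 b.1 c.1))
  (fun a => Subtype.ext (one_mul a.1))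
  (fun a => Subtype.ext (inv_mul_self a.2))

lemma G.pow_val (f : G X) (n : ℕ) : (f ^ n).1 = f.1 ^ n := by
  induction n with
  | zero => rw [pow_zero, pow_zero]; rfl
  | succ n ih => rw [pow_succ, pow_succ, G.mul_val, ih]

lemma continuous_one_sub : Continuous (fun f : NC X => 1 - f) :=
  continuous_to_NC (fun w => continuous_const.sub (continuous_eval w))

lemma continuous_invFun : Continuous (fun f : NC X => invFun f) := by
  refine continuous_to_NC (fun w => ?_)
  unfold invFun
  refine (continuous_eval w).comp ?_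
  exact continuous_finsetSum _ (fun n _ => continuous_one_sub.pow n)

instance : IsTopologicalGroup (G X) where
  continuous_mul := by
    refine Continuous.subtype_mk ?_ _
    exact (continuous_subtype_val.comp continuous_fst).mul (continuous_subtype_val.comp continuous_snd)
  continuous_inv := by
    refine Continuous.subtype_mk ?_ _
    exact continuous_invFun.comp continuous_subtype_val

lemma add_self_eq_zero' (x : NC X) : x + x = 0 := by
  ext w
  rw [NC.add_apply, NC.zero_apply]
  generalize x w = z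
  revert z; decide

lemma one_add_pow (h : NC X) (n : ℕ) : (1 + h) ^ (2 ^ n) = 1 + h ^ (2 ^ n) := by
  induction n with
  | zero => simp
  | succ n ih =>
    rw [pow_succ, pow_mul, ih, pow_mul, sq, sq]
    have : (1 + h ^ 2 ^ n) * (1 + h ^ 2 ^ n) = 1 + (h ^ 2 ^ n + h ^ 2 ^ n) + h ^ 2 ^ n * h ^ 2 ^ n := by
      noncomm_ring
    rw [this, add_self_eq_zero', add_zero]

lemma tendsto_pow (g : G X) : Tendsto (fun n : ℕ => g ^ (2 ^ n)) atTop (𝓝 1) := by
  have h : Tendsto (fun n : ℕ => (g ^ (2 ^ n)).1) atTop (𝓝 (1 : NC X)) := by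
    refine (tendsto_pi_nhds (A := fun _ : List X => ZMod 2)).mpr (fun w => ?_)
    refine Tendsto.congr' ?_ tendsto_const_nhds
    filter_upwards [eventually_gt_atTop w.length] with n hn
    have h1 : g.1 = 1 + (g.1 - 1) := by abel
    have h0 : (g.1 - 1) [] = 0 := by rw [NC.sub_apply, g.2, NC.one_nil, sub_self]
    rw [G.pow_val, h1, one_add_pow, NC.add_apply, pow_apply_eq_zero h0 _ w, add_zero]
    exact lt_trans hn Nat.lt_two_pow_self
  exact tendsto_subtype_rng.mpr h

theorem index_eq (U : Subgroup (G X)) (hU : IsOpen (U : Set (G X))) (hN : U.Normal) :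
    ∃ n : ℕ, U.index = 2 ^ n := by
  have : Fact (Nat.Prime 2) := ⟨Nat.prime_two⟩
  have : Finite (G X ⧸ U) := Subgroup.quotient_finite_of_isOpen U hU
  have hp : IsPGroup 2 (G X ⧸ U) := by
    intro x
    obtain ⟨g, rfl⟩ := QuotientGroup.mk_surjective x
    have h := (tendsto_pow g).eventually (hU.mem_nhds (one_mem U))
    obtain ⟨n, hn⟩ := h.exists
    refine ⟨n, ?_⟩
    rw [← QuotientGroup.mk_pow]
    exact (QuotientGroup.eq_one_iff _).mpr hn
  obtain ⟨n, hn⟩ := IsPGroup.iff_card.mp hp
  exact ⟨n, hn⟩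

section main
variable {q : NC Letter →ₗ[ZMod 2] AA} {Φ : ℕ → NC Letter →ₗ[ZMod 2] AA}

/-- the group homomorphism to sequences of unitriangular matrices -/
noncomputable def PhiHom (hΦ : ∀ n, Good MM q n Φ) : G Letter →* AA where
  toFun g := Phi Φ g.1
  map_one' := Phi_one hΦ
  map_mul' a b := Phi_mul hΦ a.1 b.1

/-- series whose image is eventually trivial -/
noncomputable def K (hΦ : ∀ n, Good MM q n Φ) : Subgroup (G Letter) where
  carrier := {g | ∀ᶠ i in atTop, PhiHom hΦ g i = 1}
  mul_mem' := by
    intro a b ha hb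
    filter_upwards [ha, hb] with i h1 h2
    rw [map_mul, Pi.mul_apply, h1, h2, one_mul]
  one_mem' := Filter.Eventually.of_forall (fun i => by rw [map_one]; rfl)
  inv_mem' := by
    intro a ha
    filter_upwards [ha] with i h1
    have h2 : PhiHom hΦ (a⁻¹ * a) i = 1 := by rw [inv_mul_cancel, map_one]; rfl
    rw [map_mul, Pi.mul_apply, h1, mul_one] at h2
    exact h2

lemma mem_K (hΦ : ∀ n, Good MM q n Φ) (g : G Letter) :
    g ∈ K hΦ ↔ ∀ᶠ i in atTop, PhiHom hΦ g i = 1 := Iff.rfl

instance K_normal (hΦ : ∀ n, Good MM q n Φ) : (K hΦ).Normal where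
  conj_mem := by
    intro a ha g
    rw [mem_K] at *
    filter_upwards [ha] with i h1
    have h2 : PhiHom hΦ (g * g⁻¹) i = 1 := by rw [mul_inv_cancel, map_one]; rfl
    rw [map_mul, Pi.mul_apply] at h2
    rw [map_mul, map_mul, Pi.mul_apply, Pi.mul_apply, h1, mul_one, h2]

/-- the letter element of the group -/
noncomputable def letterG (Y : Letter) : G Letter := ⟨letterSeries Y, by simp [letterSeries]⟩

end main

theorem main : ∃ (K : Subgroup (G Letter)) (_ : K.Normal), K ≠ ⊤ ∧
    commutator (G Letter ⧸ K) = ⊤ := by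
  classical
  obtain ⟨q, hq1, hq2⟩ := exists_q
  obtain ⟨Φ, hΦ⟩ := exists_family (M := MM) (q := q) MM_zero MM_mul hq1
  have hlet : ∀ Y : Letter, PhiHom hΦ (letterG Y) = 1 + Y := fun Y => Phi_letter hΦ hq2 Y
  refine ⟨K hΦ, K_normal hΦ, ?_, ?_⟩
  · intro hK
    let Y : AA := fun i => shiftMat (i + 1)
    have hY : Y ∈ MM 1 := by
      refine ⟨fun i => fil_anti (by omega) (shiftMat_mem (i + 1)), fun _ D => ?_⟩
      filter_upwards [eventually_ge_atTop D] with i hi
      exact fil_anti (by omega) (shiftMat_mem (i + 1))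
    have h1 : letterG ⟨Y, hY⟩ ∈ K hΦ := by rw [hK]; exact Subgroup.mem_top _
    rw [mem_K] at h1
    obtain ⟨i, hi⟩ := h1.exists
    rw [hlet] at hi
    have h2 : (1 + Y i : IA) 0 (i + 1) = (1 : IA) 0 (i + 1) := by
      rw [show (1 + Y i : IA) = 1 from hi]
    rw [IncidenceAlgebra.add_apply] at h2
    have h3 : (Y i) 0 (i + 1) = 0 := by
      simpa using h2
    have h4 : (Y i) 0 (i + 1) = 1 := by
      show shiftMat (i + 1) 0 (i + 1) = 1
      rw [shiftMat_apply, if_pos (by omega)]
    rw [h4] at h3
    exact one_ne_zero h3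
  · rw [eq_top_iff]
    intro x _
    obtain ⟨g, rfl⟩ := QuotientGroup.mk_surjective x
    have hZ : Phi Φ g.1 - 1 ∈ MM 1 := Phi_sub_one_mem hΦ g.1 g.2
    obtain ⟨X', hX', Y', hY', hev⟩ := comm_seq _ hZ
    let x' := letterG ⟨X', hX'⟩
    let y' := letterG ⟨Y', hY'⟩
    have hK : (x' * y')⁻¹ * (y' * x' * g) ∈ K hΦ := by
      rw [mem_K]
      filter_upwards [hev] with i hi
      have h1 : PhiHom hΦ g i = 1 + (Phi Φ g.1 - 1) i := by
        rw [Pi.sub_apply]
        show Phi Φ g.1 i = 1 + (Phi Φ g.1 i - 1)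
        abel
      have h2 : PhiHom hΦ (y' * x' * g) i = PhiHom hΦ (x' * y') i := by
        rw [map_mul, map_mul, map_mul, Pi.mul_apply, Pi.mul_apply, Pi.mul_apply, h1, hlet, hlet]
        exact hi
      rw [map_mul, Pi.mul_apply, h2, ← Pi.mul_apply, ← map_mul, inv_mul_cancel, map_one]
      rfl
    have h3 : ((x' * y' : G Letter) : G Letter ⧸ K hΦ) = ((y' * x' * g : G Letter) : G Letter ⧸ K hΦ) :=
      QuotientGroup.eq.mpr hK
    have h4 : (g : G Letter ⧸ K hΦ) = ⁅((x' : G Letter) : G Letter ⧸ K hΦ)⁻¹, ((y' : G Letter) : G Letter ⧸ K hΦ)⁻¹⁆ := by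
      rw [commutatorElement_def]
      rw [QuotientGroup.mk_mul, QuotientGroup.mk_mul, QuotientGroup.mk_mul] at h3
      rw [inv_inv, inv_inv, mul_assoc, h3]
      group
    rw [h4]
    exact Subgroup.commutator_mem_commutator (Subgroup.mem_top _) (Subgroup.mem_top _)

end Pool.Agent.Helper3.ProP
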