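import Pool.Agent.Helper3.NCExt

set_option autoImplicit false

namespace Pool.Agent.Helper3.ProP

open Finset Filter

/-- infinite upper triangular matrices over the field with two elements -/
abbrev IA : Type := IncidenceAlgebra (ZMod 2) ℕ

/-- sequences of such matrices -/
abbrev AA : Type := ℕ → IA

/-- matrices supported on the diagonals of index at least `D` -/
def fil (D : ℕ) : Submodule (ZMod 2) IA where
  carrier := {a | ∀ r s : ℕ, s < r + D → a r s = 0}
  add_mem' := by
    intro a b ha hb r s h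
    rw [IncidenceAlgebra.add_apply, ha r s h, hb r s h, add_zero]
  zero_mem' := fun r s _ => rfl
  smul_mem' := by
    intro c a ha r s h
    rw [IncidenceAlgebra.constSMul_apply, ha r s h, smul_zero]

lemma mem_fil {D : ℕ} {a : IA} : a ∈ fil D ↔ ∀ r s : ℕ, s < r + D → a r s = 0 := Iff.rfl

lemma fil_mul {D E : ℕ} {a b : IA} (ha : a ∈ fil D) (hb : b ∈ fil E) : a * b ∈ fil (D + E) := by
  intro r s h
  rw [IncidenceAlgebra.mul_apply]
  refine Finset.sum_eq_zero (fun t _ => ?_)
  by_cases ht : t < r + D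
  · rw [ha r t ht, zero_mul]
  · rw [hb t s (by omega), mul_zero]

lemma fil_anti {D E : ℕ} (h : D ≤ E) : fil E ≤ fil D := fun _ ha r s hs => ha r s (by omega)

lemma mem_fil_zero (a : IA) : a ∈ fil 0 := by
  intro r s h
  exact IncidenceAlgebra.apply_eq_zero_of_not_le (by omega) a

/-- the graded control modules -/
def MM (d : ℕ) : Submodule (ZMod 2) AA where
  carrier := {Y | (∀ i, Y i ∈ fil d) ∧ (1 ≤ d → ∀ D, ∀ᶠ i in atTop, Y i ∈ fil D)}
  add_mem' := by
    intro a b ha hb
    refine ⟨fun i => Submodule.add_mem _ (ha.1 i) (hb.1 i), fun h D => ?_⟩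
    filter_upwards [ha.2 h D, hb.2 h D] with i h1 h2
    exact Submodule.add_mem _ h1 h2
  zero_mem' := ⟨fun i => Submodule.zero_mem _, fun _ D => Filter.Eventually.of_forall
    (fun i => Submodule.zero_mem _)⟩
  smul_mem' := by
    intro c a ha
    refine ⟨fun i => Submodule.smul_mem _ c (ha.1 i), fun h D => ?_⟩
    filter_upwards [ha.2 h D] with i h1
    exact Submodule.smul_mem _ c h1

lemma mem_MM {d : ℕ} {Y : AA} : Y ∈ MM d ↔
    (∀ i, Y i ∈ fil d) ∧ (1 ≤ d → ∀ D, ∀ᶠ i in atTop, Y i ∈ fil D) := Iff.rfl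

lemma MM_zero (Y : AA) : Y ∈ MM 0 := ⟨fun i => mem_fil_zero _, fun h => by omega⟩

lemma MM_mul (a b : ℕ) (ha : 1 ≤ a) (_ : 1 ≤ b) (x : AA) (hx : x ∈ MM a) (y : AA) (hy : y ∈ MM b) :
    x * y ∈ MM (a + b) := by
  refine ⟨fun i => fil_mul (hx.1 i) (hy.1 i), fun _ D => ?_⟩
  filter_upwards [hx.2 ha D] with i h1
  exact fil_anti (by omega) (fil_mul h1 (mem_fil_zero (y i)))

/-- the set of letters -/
abbrev Letter : Type := (MM 1 : Submodule (ZMod 2) AA)

lemma exists_q : ∃ q : NC Letter →ₗ[ZMod 2] AA, (∀ f, q f ∈ MM 1) ∧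
    ∀ (Y : Letter) (f : NC Letter), f [Y] = 1 → (∀ x : Letter, x ≠ Y → f [x] = 0) → q f = Y := by
  classical
  let inc : (Letter →₀ ZMod 2) →ₗ[ZMod 2] (Letter → ZMod 2) := Finsupp.lcoeFun
  have hinj : Function.Injective inc := by
    intro a b h
    exact DFunLike.coe_injective h
  obtain ⟨g, hg⟩ := LinearMap.exists_leftInverse_of_injective inc (LinearMap.ker_eq_bot.mpr hinj)
  let ev : NC Letter →ₗ[ZMod 2] (Letter → ZMod 2) :=
    { toFun := fun f x => f [x]
      map_add' := fun f g => rfl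
      map_smul' := fun c f => rfl }
  let lc : (Letter →₀ ZMod 2) →ₗ[ZMod 2] (MM 1 : Submodule (ZMod 2) AA) :=
    Finsupp.linearCombination (ZMod 2) (id : Letter → Letter)
  refine ⟨(MM 1).subtype ∘ₗ lc ∘ₗ g ∘ₗ ev, fun f => (lc (g (ev f))).2, ?_⟩
  intro Y f hf1 hf2
  have h1 : ev f = inc (Finsupp.single Y 1) := by
    funext x
    show f [x] = (Finsupp.single Y (1 : ZMod 2)) x
    rw [Finsupp.single_apply]
    split_ifs with h
    · rw [← h]; exact hf1
    · exact hf2 x (fun h' => h h'.symm)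
  have h2 : g (ev f) = Finsupp.single Y 1 := by
    rw [h1]
    exact LinearMap.congr_fun hg _
  show ((lc (g (ev f)) : (MM 1 : Submodule (ZMod 2) AA)) : AA) = Y
  rw [h2]
  simp only [lc]
  rw [Finsupp.linearCombination_single, one_smul]; rfl

section
variable {q : NC Letter →ₗ[ZMod 2] AA} {Φ : ℕ → NC Letter →ₗ[ZMod 2] AA}

/-- The total map. -/
def Phi (Φ : ℕ → NC Letter →ₗ[ZMod 2] AA) (f : NC Letter) : AA := fun i =>
  ⟨fun r s => ∑ d ∈ range (s - r + 1), (Φ d f i) r s, fun _ _ h =>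
    Finset.sum_eq_zero (fun _ _ => IncidenceAlgebra.apply_eq_zero_of_not_le h _)⟩

lemma Phi_apply (hΦ : ∀ n, Good MM q n Φ) (f : NC Letter) (i r s N : ℕ) (h : s < r + N) :
    Phi Φ f i r s = ∑ d ∈ range N, (Φ d f i) r s := by
  show ∑ d ∈ range (s - r + 1), (Φ d f i) r s = _
  by_cases hrs : r ≤ s
  · refine Finset.sum_subset (fun d hd => ?_) (fun d _ hd => ?_)
    · rw [Finset.mem_range] at *; omega
    · rw [Finset.mem_range] at hd
      exact (((hΦ (d + 1)).mem d (by omega) f).1 i) r s (by omega)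
  · rw [Finset.sum_eq_zero, Finset.sum_eq_zero]
    · intro d _; exact IncidenceAlgebra.apply_eq_zero_of_not_le hrs _
    · intro d _; exact IncidenceAlgebra.apply_eq_zero_of_not_le hrs _

lemma Phi_pr (hΦ : ∀ n, Good MM q n Φ) (d : ℕ) (f : NC Letter) : Φ d f = Φ d (pr d f) := by
  rw [← sub_eq_zero, ← map_sub]
  apply (hΦ (d + 1)).deg d (by omega)
  rw [map_sub, pr_of_homog (pr_homog d f), sub_self]

lemma Phi_mul_deg (hΦ : ∀ n, Good MM q n Φ) (n : ℕ) (f g : NC Letter) :
    Φ n (f * g) = ∑ p ∈ antidiagonal n, Φ p.1 f * Φ p.2 g := by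
  rw [Phi_pr hΦ n, pr_mul, map_sum]
  refine Finset.sum_congr rfl (fun p hp => ?_)
  rw [Finset.HasAntidiagonal.mem_antidiagonal] at hp
  rw [← hp, (hΦ (p.1 + p.2 + 1)).mul p.1 p.2 (by omega) _ _ (pr_homog _ _) (pr_homog _ _),
    ← Phi_pr hΦ, ← Phi_pr hΦ]

lemma sum_tri (N : ℕ) (F : ℕ → ℕ → ZMod 2) (hF : ∀ a b, N ≤ a + b → F a b = 0) :
    ∑ n ∈ range N, ∑ p ∈ antidiagonal n, F p.1 p.2 = ∑ a ∈ range N, ∑ b ∈ range N, F a b := by
  rw [← Finset.sum_product']
  have h1 : ∑ p ∈ range N ×ˢ range N, F p.1 p.2 =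
      ∑ p ∈ (range N ×ˢ range N).filter (fun p => p.1 + p.2 ∈ range N), F p.1 p.2 := by
    rw [Finset.sum_filter]
    refine Finset.sum_congr rfl (fun p _ => ?_)
    split_ifs with h
    · rfl
    · exact hF _ _ (by rw [Finset.mem_range] at h; omega)
  rw [h1, ← Finset.sum_fiberwise_of_maps_to  (t := range N)
    (g := fun p : ℕ × ℕ => p.1 + p.2) (fun p hp => (Finset.mem_filter.mp hp).2)]
  refine Finset.sum_congr rfl (fun n hn => ?_)
  refine Finset.sum_congr ?_ (fun _ _ => rfl)
  ext p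
  rw [Finset.mem_range] at hn
  simp only [Finset.HasAntidiagonal.mem_antidiagonal, Finset.mem_filter, Finset.mem_product,
    Finset.mem_range]
  omega

lemma Phi_mul (hΦ : ∀ n, Good MM q n Φ) (f g : NC Letter) : Phi Φ (f * g) = Phi Φ f * Phi Φ g := by
  funext i
  ext r s hrs
  have hN : s < r + (s - r + 1) := by omega
  generalize s - r + 1 = N at hN
  rw [Phi_apply hΦ _ i r s N hN, Pi.mul_apply, IncidenceAlgebra.mul_apply]
  have h1 : ∀ n, (Φ n (f * g) i) r s = ∑ p ∈ antidiagonal n, (Φ p.1 f i * Φ p.2 g i) r s := by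
    intro n
    rw [Phi_mul_deg hΦ, Finset.sum_apply]
    have : ∀ (S : Finset (ℕ × ℕ)) (u : ℕ × ℕ → IA), (∑ p ∈ S, u p) r s = ∑ p ∈ S, (u p) r s := by
      intro S u
      classical
      induction S using Finset.induction_on with
      | empty => simp
      | insert a S ha ih => rw [Finset.sum_insert ha, Finset.sum_insert ha,
          IncidenceAlgebra.add_apply, ih]
    rw [this]
    rfl
  simp only [h1]
  rw [sum_tri N (fun a b => (Φ a f i * Φ b g i) r s) (fun a b hab =>
    fil_mul (((hΦ (a + 1)).mem a (by omega) f).1 i) (((hΦ (b + 1)).mem b (by omega) g).1 i) r s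
      (by omega))]
  have h2 : ∀ t ∈ Icc r s, Phi Φ f i r t * Phi Φ g i t s =
      ∑ a ∈ range N, ∑ b ∈ range N, (Φ a f i) r t * (Φ b g i) t s := by
    intro t ht
    rw [Finset.mem_Icc] at ht
    rw [Phi_apply hΦ f i r t N (by omega), Phi_apply hΦ g i t s N (by omega), Finset.sum_mul_sum]
  have h3 := Finset.sum_congr (rfl : Icc r s = Icc r s) h2
  rw [h3]
  symm
  rw [Finset.sum_comm]
  refine Finset.sum_congr rfl (fun a _ => ?_)
  rw [Finset.sum_comm]
  refine Finset.sum_congr rfl (fun b _ => ?_)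
  rw [IncidenceAlgebra.mul_apply]

lemma Phi_one (hΦ : ∀ n, Good MM q n Φ) : Phi Φ 1 = 1 := by
  funext i
  ext r s hrs
  rw [Phi_apply hΦ _ i r s (s - r + 1) (by omega), Finset.sum_range_succ']
  have h0 : Φ 0 1 = 1 := by
    rw [(hΦ 1).zero (by omega), NC.one_nil, one_smul]
  rw [Finset.sum_eq_zero, zero_add, h0]
  · intro d _
    have : Φ (d + 1) 1 = 0 := by
      apply (hΦ (d + 2)).deg (d + 1) (by omega)
      ext w
      rw [pr_apply, NC.zero_apply]
      split_ifs with h
      · cases w with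
        | nil => simp at h
        | cons x w => exact NC.one_cons x w
      · rfl
    rw [this]; rfl

/-- images of series with constant term one -/
lemma Phi_sub_one_mem (hΦ : ∀ n, Good MM q n Φ) (f : NC Letter) (hf : f [] = 1) :
    Phi Φ f - 1 ∈ MM 1 := by
  have h0 : Φ 0 f = 1 := by rw [(hΦ 1).zero (by omega), hf, one_smul]
  have key : ∀ i r s : ℕ, (Phi Φ f - 1) i r s = ∑ d ∈ range (s - r), (Φ (d + 1) f i) r s := by
    intro i r s
    rw [Pi.sub_apply, IncidenceAlgebra.sub_apply, Phi_apply hΦ f i r s (s - r + 1) (by omega),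
      Finset.sum_range_succ', h0]
    show _ + (1 : IA) r s - (1 : IA) r s = _
    ring
  refine ⟨fun i r s h => ?_, fun _ D => ?_⟩
  · rw [key]
    have : s - r = 0 := by omega
    rw [this]; rfl
  · have h1 : ∀ᶠ i in atTop, ∀ d ∈ range D, Φ (d + 1) f i ∈ fil D := by
      rw [Filter.eventually_all_finset]
      intro d _
      exact ((hΦ (d + 2)).mem (d + 1) (by omega) f).2 (by omega) D
    filter_upwards [h1] with i hi
    intro r s h
    rw [key]
    refine Finset.sum_eq_zero (fun d hd => ?_)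
    rw [Finset.mem_range] at hd
    exact hi d (Finset.mem_range.mpr (by omega)) r s h

/-- the series `1 + x_Y` -/
noncomputable def letterSeries (Y : Letter) : NC Letter := fun w =>
  open Classical in if w = [] then 1 else if w = [Y] then 1 else 0

lemma Phi_letter (hΦ : ∀ n, Good MM q n Φ)
    (hq : ∀ (Y : Letter) (f : NC Letter), f [Y] = 1 → (∀ x : Letter, x ≠ Y → f [x] = 0) → q f = Y)
    (Y : Letter) : Phi Φ (letterSeries Y) = 1 + Y := by
  classical
  have h0 : Φ 0 (letterSeries Y) = 1 := by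
    rw [(hΦ 1).zero (by omega)]
    simp [letterSeries]
  have h1 : Φ 1 (letterSeries Y) = Y := by
    rw [Phi_pr hΦ, (hΦ 2).one (by omega) _ (pr_homog _ _)]
    apply hq
    · rw [pr_apply]; simp [letterSeries]
    · intro x hx
      rw [pr_apply]; simp [letterSeries, hx]
  have h2 : ∀ d, Φ (d + 2) (letterSeries Y) = 0 := by
    intro d
    apply (hΦ (d + 3)).deg (d + 2) (by omega)
    ext w
    rw [pr_apply, NC.zero_apply]
    split_ifs with h
    · unfold letterSeries
      rw [if_neg, if_neg]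
      · rintro rfl; simp at h
      · rintro rfl; simp at h
    · rfl
  funext i
  ext r s hrs
  rw [Phi_apply hΦ _ i r s (s - r + 2) (by omega), Finset.sum_range_succ', Finset.sum_range_succ',
    Finset.sum_eq_zero (fun d _ => by rw [h2]; rfl), h0, zero_add, h1, add_comm]
  rfl

end

end Pool.Agent.Helper3.ProP
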