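import Mathlib

set_option autoImplicit false

namespace Pool.Agent.Helper3.ProP

open Finset

/-- Noncommutative formal power series over the field with two elements in the letters `X`. -/
def NC (X : Type) : Type := List X → ZMod 2

variable {X : Type}

/-- left transduction by a letter -/
def lsh (x : X) (f : NC X) : NC X := fun u => f (x :: u)

/-- right transduction by a word -/
def tr (u : List X) (g : NC X) : NC X := fun v => g (v ++ u)

/-- The value at the word `w` of the product of two noncommutative series. -/
def conv : List X → NC X → NC X → ZMod 2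
  | [], f, g => f [] * g []
  | (x :: w), f, g => f [] * g (x :: w) + conv w (lsh x f) g

instance : AddCommGroup (NC X) := inferInstanceAs (AddCommGroup (List X → ZMod 2))
instance : Module (ZMod 2) (NC X) := inferInstanceAs (Module (ZMod 2) (List X → ZMod 2))

@[ext] lemma NC.ext {f g : NC X} (h : ∀ w, f w = g w) : f = g := funext h

lemma NC.add_apply (f g : NC X) (w : List X) : (f + g) w = f w + g w := rfl
lemma NC.neg_apply (f : NC X) (w : List X) : (-f) w = - f w := rfl
lemma NC.sub_apply (f g : NC X) (w : List X) : (f - g) w = f w - g w := rfl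
lemma NC.zero_apply (w : List X) : (0 : NC X) w = 0 := rfl
lemma NC.smul_apply (c : ZMod 2) (f : NC X) (w : List X) : (c • f) w = c * f w := rfl
lemma lsh_apply (x : X) (f : NC X) (w : List X) : lsh x f w = f (x :: w) := rfl
lemma tr_apply (u : List X) (f : NC X) (w : List X) : tr u f w = f (w ++ u) := rfl
lemma lsh_add (x : X) (f g : NC X) : lsh x (f + g) = lsh x f + lsh x g := rfl

lemma NC.sum_apply {ι : Type} (s : Finset ι) (f : ι → NC X) (w : List X) :
    (∑ i ∈ s, f i) w = ∑ i ∈ s, f i w := by
  classical
  induction s using Finset.induction_on with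
  | empty => simp [NC.zero_apply]
  | insert a s ha ih => rw [Finset.sum_insert ha, Finset.sum_insert ha, NC.add_apply, ih]

lemma conv_eq_sum (w : List X) : ∀ (f g : NC X),
    conv w f g = ∑ i ∈ range (w.length + 1), f (w.take i) * g (w.drop i) := by
  induction w with
  | nil => intro f g; simp [conv]
  | cons x w ih =>
    intro f g
    rw [List.length_cons, Finset.sum_range_succ']
    simp only [conv, ih, List.take_succ_cons, List.drop_succ_cons, List.take_zero, List.drop_zero,
      lsh_apply]
    rw [add_comm]

lemma conv_eq_zero (w : List X) (f g : NC X)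
    (h : ∀ u v, u ++ v = w → f u * g v = 0) : conv w f g = 0 := by
  rw [conv_eq_sum]
  exact Finset.sum_eq_zero (fun i _ => h _ _ (List.take_append_drop i w))

lemma conv_add_left (w : List X) (f f' g : NC X) :
    conv w (f + f') g = conv w f g + conv w f' g := by
  simp only [conv_eq_sum, NC.add_apply, add_mul, Finset.sum_add_distrib]

lemma conv_add_right (w : List X) (f g g' : NC X) :
    conv w f (g + g') = conv w f g + conv w f g' := by
  simp only [conv_eq_sum, NC.add_apply, mul_add, Finset.sum_add_distrib]

lemma conv_smul_left (w : List X) (c : ZMod 2) (f g : NC X) :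
    conv w (c • f) g = c * conv w f g := by
  simp only [conv_eq_sum, NC.smul_apply, mul_assoc, Finset.mul_sum]

lemma conv_smul_right (w : List X) (c : ZMod 2) (f g : NC X) :
    conv w f (c • g) = c * conv w f g := by
  simp only [conv_eq_sum, NC.smul_apply, Finset.mul_sum]
  exact Finset.sum_congr rfl (fun i _ => by ring)

/-- the unit series -/
def oneFun : NC X := fun w =>
  match w with
  | [] => 1
  | (_ :: _) => 0

instance : One (NC X) := ⟨oneFun⟩
instance : Mul (NC X) := ⟨fun f g => fun w => conv w f g⟩

lemma NC.mul_apply (f g : NC X) (w : List X) : (f * g) w = conv w f g := rfl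
lemma NC.one_nil : (1 : NC X) [] = 1 := rfl
lemma NC.one_cons (x : X) (w : List X) : (1 : NC X) (x :: w) = 0 := rfl
lemma NC.mul_nil (f g : NC X) : (f * g) [] = f [] * g [] := rfl

lemma lsh_mul (x : X) (f g : NC X) : lsh x (f * g) = f [] • lsh x g + lsh x f * g := rfl

lemma conv_one_left (w : List X) (g : NC X) : conv w (1 : NC X) g = g w := by
  cases w with
  | nil => simp [conv, NC.one_nil]
  | cons x w =>
    simp only [conv, NC.one_nil, one_mul]
    rw [conv_eq_zero w _ g (fun u v _ => by rw [lsh_apply, NC.one_cons, zero_mul]), add_zero]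

lemma conv_one_right (w : List X) : ∀ (f : NC X), conv w f (1 : NC X) = f w := by
  induction w with
  | nil => intro f; simp [conv, NC.one_nil]
  | cons x w ih => intro f; simp [conv, NC.one_cons, ih, lsh_apply]

lemma conv_assoc (w : List X) : ∀ (f g h : NC X),
    conv w (f * g) h = conv w f (g * h) := by
  induction w with
  | nil => intro f g h; simp [conv, NC.mul_nil, mul_assoc]
  | cons x w ih =>
    intro f g h
    simp only [conv, lsh_mul, NC.mul_nil, NC.mul_apply]
    rw [conv_add_left, conv_smul_left, ih]
    ring

instance : Ring (NC X) where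
  __ := (inferInstance : AddCommGroup (NC X))
  mul_assoc f g h := by ext w; exact conv_assoc w f g h
  one_mul f := by ext w; exact conv_one_left w f
  mul_one f := by ext w; exact conv_one_right w f
  zero_mul f := by ext w; exact conv_eq_zero w _ _ (fun u v _ => zero_mul _)
  mul_zero f := by ext w; exact conv_eq_zero w _ _ (fun u v _ => mul_zero _)
  left_distrib f g h := by ext w; exact conv_add_right w f g h
  right_distrib f g h := by ext w; exact conv_add_left w f g h

instance : Algebra (ZMod 2) (NC X) :=
  Algebra.ofModule
    (fun c f g => by ext w; exact conv_smul_left w c f g)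
    (fun c f g => by ext w; exact conv_smul_right w c f g)

/-- homogeneous of degree `d` -/
def Homog (d : ℕ) (f : NC X) : Prop := ∀ w : List X, w.length ≠ d → f w = 0

lemma Homog.mul {a b : ℕ} {f g : NC X} (hf : Homog a f) (hg : Homog b g) : Homog (a + b) (f * g) := by
  intro w hw
  refine conv_eq_zero w f g (fun u v huv => ?_)
  by_cases hu : u.length = a
  · have hv : v.length ≠ b := by
      intro hv; apply hw; rw [← huv, List.length_append, hu, hv]
    rw [hg v hv, mul_zero]
  · rw [hf u hu, zero_mul]

lemma Homog.add {a : ℕ} {f g : NC X} (hf : Homog a f) (hg : Homog a g) : Homog a (f + g) := by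
  intro w hw; rw [NC.add_apply, hf w hw, hg w hw, add_zero]

lemma Homog.neg {a : ℕ} {f : NC X} (hf : Homog a f) : Homog a (-f) := by
  intro w hw; rw [NC.neg_apply, hf w hw, neg_zero]

lemma Homog.smul {a : ℕ} {f : NC X} (c : ZMod 2) (hf : Homog a f) : Homog a (c • f) := by
  intro w hw; rw [NC.smul_apply, hf w hw, mul_zero]

/-- projection to the degree `d` part -/
def pr (d : ℕ) : NC X →ₗ[ZMod 2] NC X where
  toFun f := fun w => if w.length = d then f w else 0
  map_add' f g := by
    ext w
    show (if w.length = d then (f + g) w else 0) = (if w.length = d then f w else 0) +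
      (if w.length = d then g w else 0)
    split_ifs <;> simp [NC.add_apply]
  map_smul' c f := by
    ext w
    show (if w.length = d then (c • f) w else 0) = c * (if w.length = d then f w else 0)
    split_ifs <;> simp [NC.smul_apply]

lemma pr_apply (d : ℕ) (f : NC X) (w : List X) : pr d f w = if w.length = d then f w else 0 := rfl

lemma pr_homog (d : ℕ) (f : NC X) : Homog d (pr d f) := by
  intro w hw; rw [pr_apply, if_neg hw]

lemma pr_of_homog {d : ℕ} {f : NC X} (hf : Homog d f) : pr d f = f := by
  ext w; rw [pr_apply]; split_ifs with h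
  · rfl
  · exact (hf w h).symm

lemma pr_mul (n : ℕ) (f g : NC X) :
    pr n (f * g) = ∑ p ∈ antidiagonal n, pr p.1 f * pr p.2 g := by
  ext w
  rw [NC.sum_apply, pr_apply]
  split_ifs with h
  · rw [NC.mul_apply, conv_eq_sum, Finset.Nat.sum_antidiagonal_eq_sum_range_succ_mk]
    rw [h]
    refine Finset.sum_congr rfl (fun i hi => ?_)
    rw [Finset.mem_range] at hi
    rw [NC.mul_apply, conv_eq_sum, h]
    rw [Finset.sum_eq_single i]
    · rw [pr_apply, pr_apply, if_pos, if_pos]
      · simp [h]
      · simp [h]; omega
    · intro j hj hji
      rw [Finset.mem_range] at hj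
      rw [pr_apply, if_neg, zero_mul]
      simp [h]; omega
    · intro hn; exact absurd (Finset.mem_range.mpr hi) hn
  · symm
    refine Finset.sum_eq_zero (fun p hp => ?_)
    rw [Finset.HasAntidiagonal.mem_antidiagonal] at hp
    apply (pr_homog p.1 f).mul (pr_homog p.2 g)
    rw [hp]; exact h

lemma conv_append_singleton (w : List X) (x : X) : ∀ (f g : NC X),
    conv (w ++ [x]) f g = conv w f (tr [x] g) + f (w ++ [x]) * g [] := by
  induction w with
  | nil => intro f g; simp [conv, lsh_apply, tr_apply]
  | cons y w ih =>
    intro f g
    simp only [List.cons_append, conv, ih, tr_apply, lsh_apply]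
    ring

lemma tr_append (u v : List X) (g : NC X) : tr (u ++ v) g = tr u (tr v g) := by
  ext w; simp [tr_apply]

lemma conv_append (u : List X) : ∀ (w : List X) (f g : NC X),
    (∀ v : List X, v.length < u.length → g v = 0) →
    conv (w ++ u) f g = conv w f (tr u g) := by
  induction u using List.reverseRecOn with
  | nil => intro w f g _; simp only [List.append_nil]; congr 1; ext v; simp [tr_apply]
  | append_singleton u x ih =>
    intro w f g hg
    rw [← List.append_assoc, conv_append_singleton, hg [] (by simp), mul_zero, add_zero,
      ih w f (tr [x] g) (fun v hv => hg (v ++ [x]) (by simp; exact hv)), tr_append]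

lemma tr_homog {b : ℕ} {g : NC X} (hg : Homog b g) (u : List X) (hu : u.length ≤ b) :
    Homog (b - u.length) (tr u g) := by
  intro w hw
  apply hg
  rw [List.length_append]; omega

lemma tr_mul {b : ℕ} {f g : NC X} (hg : Homog b g) (u : List X) (hu : u.length ≤ b) (w : List X) :
    (f * g) (w ++ u) = (f * tr u g) w := by
  rw [NC.mul_apply, NC.mul_apply]
  exact conv_append u w f g (fun v hv => hg v (by omega))

lemma homog_zero_eq {f : NC X} (hf : Homog 0 f) : f = f [] • (1 : NC X) := by
  ext w
  cases w with
  | nil => rw [NC.smul_apply, NC.one_nil, mul_one]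
  | cons x w => rw [NC.smul_apply, NC.one_cons, mul_zero]; exact hf _ (by simp)

end Pool.Agent.Helper3.ProP
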